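import Pool.Agent.TH117.CV.Defs

/-!
# Constant varieties over a function field: the data used in the proofs
-/

open CategoryTheory AlgebraicGeometry

set_option autoImplicit false

universe u v v' w

namespace Pool.Agent.TH117.CV

open Pool.Agent.H914 Pool.Agent.H914.VarClass Pool.Agent.H914.VarClass.Obj Pool.Agent.W492.BB
  Pool.Agent.W550.Corr Pool.Agent.TH133

variable {k₀ : Type u} [Field k₀] {𝒱₀ : VarClass k₀} {k : Type u} [Field k] {𝒱 : VarClass k}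
  {K : Type w} [Field K] {C₀ : TheoryData.{u, v, 0} 𝒱₀ ℚ} {C : TheoryData.{u, v', 0} 𝒱 ℚ}

/-- The same data (auxiliary, used in the proofs). -/
structure CVData (H₀ : WeilTheoryData.{u, v, w} C₀ K) (B : 𝒱₀.Obj)
    (H : WeilTheoryData.{u, v', w} C K) where
  bc : 𝒱₀.Obj ⥤ 𝒱.Obj
  dim_bc : ∀ X, (bc.obj X).dim = X.dim
  exists_iso : ∀ Y : 𝒱.Obj, ∃ X : 𝒱₀.Obj, Nonempty (bc.obj X ≅ Y)
  isIso_prod : ∀ X Y : 𝒱₀.Obj, IsIso (Obj.lift (bc.map (fst X Y)) (bc.map (snd X Y)))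
  res : ∀ X : 𝒱₀.Obj, C₀.A (X.prod B) →ₐ[ℚ] C.A (bc.obj X)
  res_deg : ∀ (X : 𝒱₀.Obj) (i : ℤ) (z : C₀.A (X.prod B)), C₀.Deg i z → C.Deg i (res X z)
  res_surj : ∀ (X : 𝒱₀.Obj) (i : ℤ) (x : C.A (bc.obj X)), C.Deg i x →
    ∃ z : C₀.A (X.prod B), C₀.Deg i z ∧ res X z = x
  res_pull : ∀ {X Y : 𝒱₀.Obj} (f : X ⟶ Y) (z : C₀.A (Y.prod B)),
    res X (C₀.up (prodMap f (𝟙 B)) z) = C.up (bc.map f) (res Y z)
  res_push : ∀ {X Y : 𝒱₀.Obj} (f : X ⟶ Y) (z : C₀.A (X.prod B)),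
    res Y (C₀.down (prodMap f (𝟙 B)) z) = C.down (bc.map f) (res X z)
  res_base : ∀ (X : 𝒱₀.Obj) (i : ℤ) (b : C₀.A B), 0 < i → C₀.Deg i b →
    res X (C₀.up (snd X B) b) = 0
  res_special : ∀ (X : 𝒱₀.Obj) (z : C₀.A (X.prod B)) (b : C₀.A B), C₀.Deg B.dim b →
    HasDegree C₀ b 1 → res X z = 0 →
      C₀.down (fst X B) (C₀.mul z (C₀.up (snd X B) b)) = 0
  coh : ∀ X : 𝒱₀.Obj, H₀.A X ≃ₐ[K] H.A (bc.obj X)
  coh_deg : ∀ (X : 𝒱₀.Obj) (i : ℤ) (a : H₀.A X), H.Deg i (coh X a) ↔ H₀.Deg i a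
  coh_pull : ∀ {X Y : 𝒱₀.Obj} (f : X ⟶ Y) (a : H₀.A Y),
    coh X (H₀.up f a) = H.up (bc.map f) (coh Y a)
  coh_push : ∀ {X Y : 𝒱₀.Obj} (f : X ⟶ Y) (a : H₀.A X),
    coh Y (H₀.down f a) = H.down (bc.map f) (coh X a)
  cl_res : ∀ (X : 𝒱₀.Obj) (b : C₀.A B), C₀.Deg B.dim b → HasDegree C₀ b 1 →
    ∀ z : C₀.A (X.prod B), H.cl (res X z) =
      coh X (H₀.cl (C₀.down (fst X B) (C₀.mul z (C₀.up (snd X B) b))))

/-- The auxiliary form of the data. -/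
noncomputable def ConstantVarieties.data {H₀ : WeilTheoryData.{u, v, w} C₀ K} {B : 𝒱₀.Obj}
    {H : WeilTheoryData.{u, v', w} C K} (S : ConstantVarieties H₀ B H) : CVData H₀ B H where
  bc := S.Φ.bc
  dim_bc := S.Φ.dim_bc
  exists_iso := S.Φ.exists_iso
  isIso_prod := S.Φ.isIso_prod
  res := S.ρ
  res_deg := S.isRestriction.deg
  res_surj := S.isRestriction.surj
  res_pull := S.isRestriction.pull
  res_push := S.isRestriction.push
  res_base := S.isRestriction.base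
  res_special X z b hb hb1 hz := S.isRestriction.special X z b ⟨hb, fun Y => by
    rw [← one_smul ℚ (1 : C₀.A Y)]
    exact (hb1 Y).2⟩ hz
  coh := S.σ
  coh_deg := S.isComparison.deg
  coh_pull := S.isComparison.pull
  coh_push := S.isComparison.push
  cl_res X b hb hb1 z := S.compatible X b ⟨hb, fun Y => by
    rw [← one_smul ℚ (1 : C₀.A Y)]
    exact (hb1 Y).2⟩ z

end Pool.Agent.TH117.CV
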