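import Pool.Agent.TH613.MC.Defs
import Pool.Agent.TH133.BBNil

/-!
# Constant varieties over a function field: definitions

`k₀` is a field, `B` a smooth projective variety over `k₀` and `k = k₀(B)` its function field.
-/

open CategoryTheory AlgebraicGeometry

set_option autoImplicit false

universe u v v' w

namespace Pool.Agent.TH117.CV

open Pool.Agent.H914 Pool.Agent.H914.VarClass Pool.Agent.H914.VarClass.Obj Pool.Agent.W492.BB
  Pool.Agent.W550.Corr Pool.Agent.TH133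

variable {k₀ : Type u} [Field k₀] {𝒱₀ : VarClass k₀} {k : Type u} [Field k] {𝒱 : VarClass k}
  {K : Type w} [Field K] {C₀ : TheoryData.{u, v, 0} 𝒱₀ ℚ} {C : TheoryData.{u, v', 0} 𝒱 ℚ}

/-- The cup product is graded commutative. -/
def GradedCommutative (H₀ : WeilTheoryData.{u, v, w} C₀ K) : Prop :=
  ∀ (X : 𝒱₀.Obj) (i j : ℤ) (a b : H₀.A X), H₀.Deg i a → H₀.Deg j b →
    H₀.mul b a = ((i * j).negOnePow : ℤ) • H₀.mul a b

/-- The base change `X ↦ X_k = X ×_{k₀} k` from the class `𝒱₀` of varieties over `k₀` to the class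
`𝒱` of varieties over `k`: a functor preserving dimensions and products, such that each variety of
`𝒱` is isomorphic to some `X_k`. -/
structure BaseChange (𝒱₀ : VarClass k₀) (𝒱 : VarClass k) where
  /-- the functor `X ↦ X_k` -/
  bc : 𝒱₀.Obj ⥤ 𝒱.Obj
  dim_bc : ∀ X, (bc.obj X).dim = X.dim
  exists_iso : ∀ Y : 𝒱.Obj, ∃ X : 𝒱₀.Obj, Nonempty (bc.obj X ≅ Y)
  isIso_prod : ∀ X Y : 𝒱₀.Obj, IsIso (Obj.lift (bc.map (fst X Y)) (bc.map (snd X Y)))

/-- The variety `X_k`. -/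
abbrev BaseChange.ob (Φ : BaseChange 𝒱₀ 𝒱) (X : 𝒱₀.Obj) : 𝒱.Obj := Φ.bc.obj X

/-- The morphism `X_k → Y_k` induced by a morphism `X → Y` over `k₀`. -/
abbrev BaseChange.mp (Φ : BaseChange 𝒱₀ 𝒱) {X Y : 𝒱₀.Obj} (f : X ⟶ Y) : Φ.ob X ⟶ Φ.ob Y :=
  Φ.bc.map f

/-- Homomorphisms of rings `CH(X × B) → CH(X_k)` for all `X`. -/
def GenericMaps (Φ : BaseChange 𝒱₀ 𝒱) (C₀ : TheoryData.{u, v, 0} 𝒱₀ ℚ) (B : 𝒱₀.Obj)
    (C : TheoryData.{u, v', 0} 𝒱 ℚ) : Type _ :=
  ∀ X : 𝒱₀.Obj, C₀.A (X.prod B) →ₐ[ℚ] C.A (Φ.ob X)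

/-- The image of `z ∈ CH(X × B)` in `CH(X_k)`. -/
noncomputable abbrev GenericMaps.on {Φ : BaseChange 𝒱₀ 𝒱} {B : 𝒱₀.Obj} (ρ : GenericMaps Φ C₀ B C) {X : 𝒱₀.Obj}
    (z : C₀.A (X.prod B)) : C.A (Φ.ob X) := ρ X z

/-- The morphism `f × id : X × B → Y × B`. -/
noncomputable abbrev timesBase {X Y : 𝒱₀.Obj} (f : X ⟶ Y) (B : 𝒱₀.Obj) : X.prod B ⟶ Y.prod B :=
  prodMap f (𝟙 B)

/-- The class `X × b` on `X × B`, for `b ∈ CH(B)`. -/
noncomputable abbrev fromBase (X : 𝒱₀.Obj) {B : 𝒱₀.Obj} (b : C₀.A B) : C₀.A (X.prod B) :=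
  C₀.up (snd X B) b

/-- The restriction of `z ∈ CH(X × B)` to the closed fibre `X × b`, that is `p_* (z · (X × b))`, for
a zero-cycle `b` on `B`. -/
noncomputable abbrev closedFibre {X B : 𝒱₀.Obj} (z : C₀.A (X.prod B)) (b : C₀.A B) : C₀.A X :=
  C₀.down (fst X B) (C₀.mul z (fromBase X b))

/-- The zero-cycle `b` on `B` has degree one: its restriction to `Y × B` has push-forward `[Y]`, for
all `Y`. -/
def DegreeOne {B : 𝒱₀.Obj} (b : C₀.A B) : Prop :=
  C₀.Deg B.dim b ∧ ∀ Y : 𝒱₀.Obj, C₀.down (fst Y B) (fromBase Y b) = 1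

/-- The maps `CH^i(X × B) → CH^i(X_k)` are the restrictions to the generic fibre of `X × B → B`,
`k = k₀(B)`: they are surjective, compatible with products, with the pull-backs and the push-forwards
by morphisms `X → Y` over `k₀`, vanish on `X × b` for all `b ∈ CH^i(B)`, `i > 0`, and the restriction
to closed fibres factors through them (specialization). -/
structure IsRestriction {Φ : BaseChange 𝒱₀ 𝒱} {B : 𝒱₀.Obj} (ρ : GenericMaps Φ C₀ B C) : Prop where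
  deg : ∀ (X : 𝒱₀.Obj) (i : ℤ) (z : C₀.A (X.prod B)), C₀.Deg i z → C.Deg i (ρ.on z)
  surj : ∀ (X : 𝒱₀.Obj) (i : ℤ) (x : C.A (Φ.ob X)), C.Deg i x →
    ∃ z : C₀.A (X.prod B), C₀.Deg i z ∧ ρ.on z = x
  pull : ∀ {X Y : 𝒱₀.Obj} (f : X ⟶ Y) (z : C₀.A (Y.prod B)),
    ρ.on (C₀.up (timesBase f B) z) = C.up (Φ.mp f) (ρ.on z)
  push : ∀ {X Y : 𝒱₀.Obj} (f : X ⟶ Y) (z : C₀.A (X.prod B)),
    ρ.on (C₀.down (timesBase f B) z) = C.down (Φ.mp f) (ρ.on z)
  base : ∀ (X : 𝒱₀.Obj) (i : ℤ) (b : C₀.A B), 0 < i → C₀.Deg i b → ρ.on (fromBase X b) = 0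
  special : ∀ (X : 𝒱₀.Obj) (z : C₀.A (X.prod B)) (b : C₀.A B), DegreeOne b → ρ.on z = 0 →
    closedFibre z b = 0

/-- Isomorphisms of rings `H(X) ≅ H(X_k)` for all `X`. -/
def CohomologyMaps (Φ : BaseChange 𝒱₀ 𝒱) (H₀ : WeilTheoryData.{u, v, w} C₀ K)
    (H : WeilTheoryData.{u, v', w} C K) : Type _ :=
  ∀ X : 𝒱₀.Obj, H₀.A X ≃ₐ[K] H.A (Φ.ob X)

/-- The image of `a ∈ H(X)` in `H(X_k)`. -/
noncomputable abbrev CohomologyMaps.on {Φ : BaseChange 𝒱₀ 𝒱} {H₀ : WeilTheoryData.{u, v, w} C₀ K}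
    {H : WeilTheoryData.{u, v', w} C K} (σ : CohomologyMaps Φ H₀ H) {X : 𝒱₀.Obj} (a : H₀.A X) :
    H.A (Φ.ob X) := σ X a

/-- The isomorphisms `H(X) ≅ H(X_k)` (invariance of the cohomology under extensions of algebraically
closed fields) are compatible with degrees, pull-backs and push-forwards. -/
structure IsComparison {Φ : BaseChange 𝒱₀ 𝒱} {H₀ : WeilTheoryData.{u, v, w} C₀ K}
    {H : WeilTheoryData.{u, v', w} C K} (σ : CohomologyMaps Φ H₀ H) : Prop where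
  deg : ∀ (X : 𝒱₀.Obj) (i : ℤ) (a : H₀.A X), H.Deg i (σ.on a) ↔ H₀.Deg i a
  pull : ∀ {X Y : 𝒱₀.Obj} (f : X ⟶ Y) (a : H₀.A Y), σ.on (H₀.up f a) = H.up (Φ.mp f) (σ.on a)
  push : ∀ {X Y : 𝒱₀.Obj} (f : X ⟶ Y) (a : H₀.A X), σ.on (H₀.down f a) = H.down (Φ.mp f) (σ.on a)

/-- Compatibility of the restriction to the generic fibre and of the isomorphisms in cohomology: the
class of the restriction of `z ∈ CH(X × B)` to the generic fibre corresponds to the class of its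
restriction to a closed fibre, for `b` a zero-cycle of degree one on `B`. -/
def Compatible {Φ : BaseChange 𝒱₀ 𝒱} {B : 𝒱₀.Obj} (ρ : GenericMaps Φ C₀ B C)
    {H₀ : WeilTheoryData.{u, v, w} C₀ K} {H : WeilTheoryData.{u, v', w} C K}
    (σ : CohomologyMaps Φ H₀ H) : Prop :=
  ∀ (X : 𝒱₀.Obj) (b : C₀.A B), DegreeOne b →
    ∀ z : C₀.A (X.prod B), H.cl (ρ.on z) = σ.on (H₀.cl (closedFibre z b))

/-- The situation of the constant varieties over the function field `k = k₀(B)` of the variety `B`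
over `k₀`: the varieties of the class `𝒱` over `k` are (up to isomorphism) the varieties
`X_k = X ×_{k₀} k` for `X` in the class `𝒱₀` over `k₀`; `C₀` and `C` are the Chow groups over `k₀`
and over `k`, and `H₀` and `H` the cohomology theories (for example `ℓ`-adic cohomology over the
algebraic closures of `k₀` and `k`). -/
structure ConstantVarieties (H₀ : WeilTheoryData.{u, v, w} C₀ K) (B : 𝒱₀.Obj)
    (H : WeilTheoryData.{u, v', w} C K) where
  /-- the base change -/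
  Φ : BaseChange 𝒱₀ 𝒱
  /-- the restriction to the generic fibre -/
  ρ : GenericMaps Φ C₀ B C
  /-- the comparison of the cohomology groups -/
  σ : CohomologyMaps Φ H₀ H
  isRestriction : IsRestriction ρ
  isComparison : IsComparison σ
  compatible : Compatible ρ σ

/-- Homological and rational equivalence (with rational coefficients) agree on `X`. -/
def HomEqRat (H₀ : WeilTheoryData.{u, v, w} C₀ K) (X : 𝒱₀.Obj) : Prop :=
  ∀ (i : ℕ) (z : C₀.A X), C₀.Deg i z → H₀.cl z = 0 → z = 0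

/-- The class `P(φ^*) a`, for a polynomial `P` with integral coefficients. -/
noncomputable def polyAct (H₀ : WeilTheoryData.{u, v, w} C₀ K) {X : 𝒱₀.Obj} (φ : X ⟶ X)
    (P : Polynomial ℤ) (a : H₀.A X) : H₀.A X :=
  P.sum fun n c => c • (H₀.up φ)^[n] a

/-- The Frobenius endomorphisms of the varieties over the finite field with `q` elements: the
endomorphism `φ` of `X` acts on `CH^i(X)` as the multiplication by `q^i`, and for `j ≠ 2 i` some
polynomial `P` with integral coefficients and `P(q^i) ≠ 0` satisfies `P(φ^*) = 0` on `H^j(X)` (for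
example the characteristic polynomial of `φ^*` on `H^j(X)`, by the theorem of Deligne). -/
def HasFrobenius (H₀ : WeilTheoryData.{u, v, w} C₀ K) (q : ℕ) : Prop :=
  ∀ X : 𝒱₀.Obj, ∃ φ : X ⟶ X, (∀ (i : ℕ) (z : C₀.A X), C₀.Deg i z →
      C₀.up φ z = ((q : ℚ) ^ i) • z) ∧
    ∀ (i : ℕ) (j : ℤ), j ≠ 2 * i → ∃ P : Polynomial ℤ, P.eval ((q : ℤ) ^ i) ≠ 0 ∧
      ∀ a : H₀.A X, H₀.Deg j a → polyAct H₀ φ P a = 0

/-- The classes in `CH^i(X × B)` whose Kunneth components have degree at least `n` in `B`, that is,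
whose cohomology class lies in the sum of the `H^(2i-m)(X) ⊗ H^m(B)` for `m ≥ n`. -/
def HasDegreeInBase (H₀ : WeilTheoryData.{u, v, w} C₀ K) {X B : 𝒱₀.Obj} (i n : ℕ)
    (z : C₀.A (X.prod B)) : Prop :=
  C₀.Deg i z ∧ H₀.cl z ∈ Submodule.span K {c | ∃ (m : ℕ) (a : H₀.A X) (b : H₀.A B), n ≤ m ∧
    H₀.Deg (2 * i - m) a ∧ H₀.Deg m b ∧ c = H₀.mul (H₀.up (fst X B) a) (H₀.up (snd X B) b)}

/-- The filtration `F` of the Chow groups of the constant varieties is given by the Kunneth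
components: `F^n CH^i(X_k)` is the image under restriction to the generic fibre of the classes in
`CH^i(X × B)` whose Kunneth components have degree at least `n` in `B`; moreover `F^n = 0` for
`n > dim B`. -/
def IsKunnethFiltration {H₀ : WeilTheoryData.{u, v, w} C₀ K} {B : 𝒱₀.Obj}
    {H : WeilTheoryData.{u, v', w} C K} (S : ConstantVarieties H₀ B H) (F : Filtration C) : Prop :=
  (∀ (Y : 𝒱.Obj) (i n : ℕ), B.dim < n → F.F Y i n = ⊥) ∧
    ∀ (X : 𝒱₀.Obj) (i n : ℕ) (y : C.A (S.Φ.ob X)), F.Mem i n y ↔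
      ∃ z : C₀.A (X.prod B), HasDegreeInBase H₀ i n z ∧ S.ρ.on z = y

end Pool.Agent.TH117.CV
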