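import Pool.Agent.TH117.CV.Defs

/-!
# The filtration of a Chow-Kunneth decomposition and Murre's conjectures: definitions
-/

open CategoryTheory AlgebraicGeometry

set_option autoImplicit false

universe u v w

namespace Pool.Agent.TH117.CV

open Pool.Agent.H914 Pool.Agent.H914.VarClass Pool.Agent.H914.VarClass.Obj Pool.Agent.W492.BB
  Pool.Agent.TH133

variable {k : Type u} [Field k] {𝒱 : VarClass k} {C : TheoryData.{u, v, 0} 𝒱 ℚ} {K : Type w}
  [Field K]

/-- The class `y` lies in the step `F^n CH^i(X) = (π_{2i-n} + ⋯ + π_0)_* CH^i(X)` of the filtration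
attached to `π` (which is zero if `n > 2 i`). -/
def InStep {X : 𝒱.Obj} (π : ℕ → C.A (X.prod X)) (i n : ℕ) (y : C.A X) : Prop :=
  ∃ x : C.A X, C.Deg i x ∧ y = C.act (∑ j ∈ Finset.range (2 * i + 1 - n), π j) x

/-- Murre's conjectures (B), (C), (D) for the Chow-Kunneth decomposition `π` of `X`:
`F^0 CH^i(X) = CH^i(X)` and `F^(i+1) CH^i(X) = 0`, the filtration is the same for all Chow-Kunneth
decompositions, and `F^1 CH^i(X)` consists of the homologically trivial classes. -/
structure IsMurre (H : WeilTheoryData.{u, v, w} C K) {X : 𝒱.Obj} (π : ℕ → C.A (X.prod X)) :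
    Prop where
  zero : ∀ (i : ℕ) (y : C.A X), C.Deg i y → InStep π i 0 y
  top : ∀ (i : ℕ) (y : C.A X), InStep π i (i + 1) y → y = 0
  indep : ∀ π' : ℕ → C.A (X.prod X), IsCK H X π' → ∀ (i n : ℕ) (y : C.A X),
    InStep π i n y ↔ InStep π' i n y
  one : ∀ (i : ℕ) (y : C.A X), InStep π i 1 y ↔ C.Deg i y ∧ H.cl y = 0

end Pool.Agent.TH117.CV
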