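import Pool.Agent.TH117.CV.Frob

/-!
# The Bloch-Beilinson filtration of constant varieties in terms of Kunneth components
-/

open CategoryTheory AlgebraicGeometry

set_option autoImplicit false

universe u v v' w

namespace Pool.Agent.TH117.CV

open Pool.Agent.H914 Pool.Agent.H914.VarClass Pool.Agent.H914.VarClass.Obj Pool.Agent.W492.BB
  Pool.Agent.W550.Corr Pool.Agent.TH133

variable {k₀ : Type u} [Field k₀] {𝒱₀ : VarClass k₀} {k : Type u} [Field k] {𝒱 : VarClass k}
  {K : Type w} [Field K] {C₀ : TheoryData.{u, v, 0} 𝒱₀ ℚ} {C : TheoryData.{u, v', 0} 𝒱 ℚ}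
  [hC₀ : IsChowProj C₀] [hC : IsChowProj C]
  {H₀ : WeilTheoryData.{u, v, w} C₀ K} {H : WeilTheoryData.{u, v', w} C K}
  [hH₀ : IsWeilProj H₀] [hH : IsWeilProj H] {B : 𝒱₀.Obj}

omit hC₀ hH₀ in
lemma hasDegreeInBase_iff {X B : 𝒱₀.Obj} (i n : ℕ) (z : C₀.A (X.prod B)) :
    HasDegreeInBase H₀ i n z ↔ z ∈ C₀.gr (X.prod B) i ∧ H₀.cl z ∈ wt H₀ X B n (2 * i) := by
  unfold HasDegreeInBase wt
  refine and_congr Iff.rfl ?_
  have : {c : H₀.A (X.prod B) | ∃ (m : ℕ) (a : H₀.A X) (b : H₀.A B), n ≤ m ∧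
      H₀.Deg (2 * i - m) a ∧ H₀.Deg m b ∧ c = H₀.mul (H₀.up (fst X B) a) (H₀.up (snd X B) b)} =
      {c | ∃ (m : ℤ) (a : H₀.A X) (b : H₀.A B), (n : ℤ) ≤ m ∧ a ∈ H₀.gr X (2 * i - m) ∧
        b ∈ H₀.gr B m ∧ c = H₀.ext a b} := by
    ext c
    constructor
    · rintro ⟨m, a, b, hm, ha, hb, rfl⟩
      exact ⟨m, a, b, by exact_mod_cast hm, ha, hb, rfl⟩
    · rintro ⟨m, a, b, hm, ha, hb, rfl⟩
      obtain ⟨l, rfl⟩ := Int.eq_ofNat_of_zero_le (show 0 ≤ m by omega)
      exact ⟨l, a, b, by exact_mod_cast hm, ha, hb, rfl⟩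
  rw [this]

variable (S : CVData H₀ B H)

include hC₀ hC hH₀ hH

/-- **The Bloch-Beilinson filtration of constant varieties.** -/
theorem mem_isBB_constant (hK : KunnethConjecture H₀)
    {X : 𝒱₀.Obj} (hR : HomEqRat H₀ (X.prod B)) {F : Filtration C} (hF : IsBB H F) (i n : ℕ)
    (y : C.A (S.bc.obj X)) : y ∈ F.F (S.bc.obj X) i n ↔
      ∃ z : C₀.A (X.prod B), HasDegreeInBase H₀ i n z ∧ S.res X z = y := by
  have hK' := kunneth_constant S hK
  choose p hp hp' using fun j : ℕ => hK X j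
  have hP : ∀ j : ℕ, ∃ P : C.A ((S.bc.obj X).prod (S.bc.obj X)),
      P ∈ C.gr _ (S.bc.obj X).dim ∧ (∀ (l : ℤ) (a : H.A (S.bc.obj X)), H.Deg l a →
        H.act (H.cl P) a = if l = j then a else 0) ∧
      ∀ (z : C₀.A (X.prod B)), C.act P (S.res X z) = S.res X (C₀.extL (p j) B z) := by
    intro j
    obtain ⟨P, h1, h2, h3⟩ := exists_projector S (𝟙 (S.bc.obj X)) (𝟙 _) (Category.comp_id _)
      (Category.comp_id _) (hp j) (hp' j)
    refine ⟨P, h1, h2, fun z => ?_⟩
    have := h3 (S.res X z) z (by rw [C.pull_id])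
    rwa [C.pull_id] at this
  choose P hP1 hP2 hP3 using hP
  -- the operators on `CH(X × B)`
  have hE : ∀ (j : ℕ) (z : C₀.A (X.prod B)), z ∈ C₀.gr (X.prod B) i →
      C₀.extL (p j) B z ∈ C₀.gr (X.prod B) i := by
    intro j z hz
    have h1 := extL_mem (C := C₀) (Y := X) (e := 0) (Γ := p j) (by rw [add_zero]; exact hp j) hz
    rwa [add_zero] at h1
  have hext : ∀ (j : ℕ) (l : ℤ) (a : H₀.A X) (b : H₀.A B), a ∈ H₀.gr X l →
      H₀.extLL (H₀.cl (p j)) B (H₀.ext a b) = if l = j then H₀.ext a b else 0 := by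
    intro j l a b ha
    change H₀.extL _ _ (H₀.ext a b) = _
    rw [H₀.extL_ext, hp' j l a ha]
    split_ifs
    · rfl
    · exact TheoryData.ext_zero_left _ _
  have hEE : ∀ (j : ℕ) (z : C₀.A (X.prod B)), z ∈ C₀.gr (X.prod B) i →
      C₀.extL (p j) B (C₀.extL (p j) B z) = C₀.extL (p j) B z := by
    intro j z hz
    rw [← sub_eq_zero]
    apply hR i _ (Submodule.sub_mem _ (hE j _ (hE j z hz)) (hE j z hz))
    rw [map_sub, sub_eq_zero, cl_extL, cl_extL]
    change (H₀.extLL (H₀.cl (p j)) B ∘ₗ H₀.extLL (H₀.cl (p j)) B) (H₀.cl z) =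
      H₀.extLL (H₀.cl (p j)) B (H₀.cl z)
    have h1 := mem_wt_zero (H₀.cl_mem hz)
    refine (Submodule.span_le (p := LinearMap.eqLocus _ _)).2 ?_ h1
    rintro _ ⟨m, a, b, hm, ha, hb, rfl⟩
    change H₀.extLL (H₀.cl (p j)) B (H₀.extLL (H₀.cl (p j)) B (H₀.ext a b)) =
      H₀.extLL (H₀.cl (p j)) B (H₀.ext a b)
    rw [hext j _ a b ha]
    split_ifs with h
    · rw [hext j _ a b ha, if_pos h]
    · rw [map_zero]
  -- a class of degree `≥ n` in `B` is the sum of its components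
  have hsum : ∀ (n' : ℕ) (z : C₀.A (X.prod B)), z ∈ C₀.gr (X.prod B) i →
      H₀.cl z ∈ wt H₀ X B n' (2 * i) →
        z = ∑ j ∈ Finset.range (2 * i + 1 - n'), C₀.extL (p j) B z := by
    intro n' z hz hz'
    rw [← sub_eq_zero]
    apply hR i _ (Submodule.sub_mem _ hz (Submodule.sum_mem _ fun j _ => hE j z hz))
    rw [map_sub, map_sum, sub_eq_zero, Finset.sum_congr rfl (fun j _ => cl_extL H₀ (p j) z)]
    have h1 : (LinearMap.id : H₀.A (X.prod B) →ₗ[K] H₀.A (X.prod B)) (H₀.cl z) =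
        (∑ j ∈ Finset.range (2 * i + 1 - n'), H₀.extLL (H₀.cl (p j)) B) (H₀.cl z) := by
      refine (Submodule.span_le (p := LinearMap.eqLocus _ _)).2 ?_ hz'
      rintro _ ⟨m, a, b, hm, ha, hb, rfl⟩
      change H₀.ext a b = (∑ j ∈ Finset.range (2 * i + 1 - n'), H₀.extLL (H₀.cl (p j)) B)
        (H₀.ext a b)
      rw [LinearMap.sum_apply, Finset.sum_congr rfl (fun j _ => hext j _ a b ha)]
      by_cases h0 : 0 ≤ 2 * (i : ℤ) - m
      · obtain ⟨l, hl⟩ := Int.eq_ofNat_of_zero_le h0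
        have e1 : ∀ j : ℕ, (2 * (i : ℤ) - m = j) ↔ l = j := fun j => by omega
        simp only [e1]
        rw [Finset.sum_ite_eq, if_pos (Finset.mem_range.2 (by omega))]
      · have ha0 : a = 0 := by
          rw [H₀.gr_neg X _ (by omega)] at ha
          exact (Submodule.mem_bot _).1 ha
        have h2 : H₀.ext a b = 0 := by rw [ha0]; exact TheoryData.ext_zero_left _ _
        rw [h2]
        simp
    rw [LinearMap.sum_apply] at h1
    exact h1
  have hkill : ∀ (j m : ℕ), j + m ≠ 2 * i → Kills H (P j) (2 * i - m) := by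
    intro j m hjm a ha
    rw [hP2 j _ a ha, if_neg (by omega)]
  rw [show (∃ z : C₀.A (X.prod B), HasDegreeInBase H₀ i n z ∧ S.res X z = y) ↔
    ∃ z : C₀.A (X.prod B), (z ∈ C₀.gr (X.prod B) i ∧ H₀.cl z ∈ wt H₀ X B n (2 * i)) ∧
      S.res X z = y from exists_congr fun z => and_congr (hasDegreeInBase_iff i n z) Iff.rfl]
  constructor
  · intro hy
    have hyi : C.Deg i y := F.le_gr _ i n hy
    obtain ⟨z, hz, rfl⟩ := S.res_surj X i y hyi
    have hz0 : H₀.cl z ∈ wt H₀ X B ((0 : ℕ) : ℤ) (2 * i) := by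
      have := mem_wt_zero (H₀.cl_mem hz)
      exact wt_congr this (by simp) rfl
    have h1 := hsum 0 z hz hz0
    -- the components of weight greater than `2 i - n` vanish
    have hvan : ∀ j : ℕ, 2 * i < j + n → S.res X (C₀.extL (p j) B z) = 0 := by
      intro j hj
      have h2 : ∀ m : ℕ, F.Mem i (n + m) (S.res X (C₀.extL (p j) B z)) := by
        intro m
        induction m with
        | zero =>
          rw [← hP3]
          exact F.anti _ _ _ (hF.motivic hK' _ i n (P j) (hP1 j) (hkill j n (by omega)) _ hy)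
        | succ m ih =>
          have h3 := hF.motivic hK' _ i (n + m) (P j) (hP1 j) (hkill j (n + m) (by omega)) _ ih
          rw [hP3, hEE j z hz] at h3
          exact h3
      have h3 : F.F (S.bc.obj X) i (n + (i + 1)) ≤ F.F (S.bc.obj X) i (i + 1) :=
        antitone_nat_of_succ_le (f := fun n => F.F (S.bc.obj X) i n) (F.anti _ i) (by omega)
      exact hF.bounded.top _ i _ (h3 (h2 (i + 1)))
    refine ⟨∑ j ∈ Finset.range (2 * i + 1 - n), C₀.extL (p j) B z,
      ⟨Submodule.sum_mem _ fun j _ => hE j z hz, ?_⟩, ?_⟩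
    · rw [map_sum]
      apply Submodule.sum_mem
      intro j hj
      rw [Finset.mem_range] at hj
      rw [cl_extL]
      refine (Submodule.span_le (p := (wt H₀ X B n (2 * i)).comap
        (H₀.extLL (H₀.cl (p j)) B))).2 ?_ hz0
      rintro _ ⟨m, a, b, hm, ha, hb, rfl⟩
      change H₀.extLL (H₀.cl (p j)) B (H₀.ext a b) ∈ wt H₀ X B n (2 * i)
      rw [hext j _ a b ha]
      split_ifs with h
      · exact ext_wt (by omega) ha hb
      · exact Submodule.zero_mem _
    · conv_rhs => rw [h1]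
      rw [map_sum, map_sum]
      apply Finset.sum_subset
      · intro j hj
        rw [Finset.mem_range] at hj ⊢
        omega
      · intro j hj hj'
        rw [Finset.mem_range] at hj hj'
        exact hvan j (by omega)
  · rintro ⟨z, ⟨hz, hz'⟩, rfl⟩
    rw [hsum n z hz hz', map_sum]
    apply Submodule.sum_mem
    intro j hj
    rw [Finset.mem_range] at hj
    have h1 : ∀ m : ℕ, j + m ≤ 2 * i → F.Mem i m (S.res X (C₀.extL (p j) B z)) := by
      intro m
      induction m with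
      | zero =>
        intro _
        exact (hF.bounded.zero _ i _).2 (S.res_deg X i _ (hE j z hz))
      | succ m ih =>
        intro hm
        have h3 := hF.motivic hK' _ i m (P j) (hP1 j) (hkill j m (by omega)) _ (ih (by omega))
        rw [hP3, hEE j z hz] at h3
        exact h3
    exact h1 n (by omega)

end Pool.Agent.TH117.CV
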