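import Pool.Agent.TH117.CV.Main

/-!
# Bloch-Beilinson filtrations over finite fields
-/

open CategoryTheory AlgebraicGeometry

set_option autoImplicit false

universe u v v' w

namespace Pool.Agent.TH117.CV

open Pool.Agent.H914 Pool.Agent.H914.VarClass Pool.Agent.H914.VarClass.Obj Pool.Agent.W492.BB
  Pool.Agent.W550.Corr Pool.Agent.TH133

lemma aeval_apply_eigen {M : Type*} [AddCommGroup M] [Module ℚ M] (A : Module.End ℚ M) (x : M)
    (m : ℤ) (h : A x = (m : ℚ) • x) (P : Polynomial ℤ) :
    Polynomial.aeval A P x = ((P.eval m : ℤ) : ℚ) • x := by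
  have hp : ∀ n : ℕ, (A ^ n) x = ((m : ℚ) ^ n) • x := by
    intro n
    induction n with
    | zero => simp
    | succ n ih => rw [pow_succ', Module.End.mul_apply, ih, map_smul, h, smul_smul, pow_succ]
  induction P using Polynomial.induction_on' with
  | add P Q hP hQ =>
    rw [map_add, LinearMap.add_apply, hP, hQ, Polynomial.eval_add, Int.cast_add, add_smul]
  | monomial n c =>
    rw [Polynomial.aeval_monomial, Polynomial.eval_monomial, Module.End.mul_apply, hp]
    have h1 : (algebraMap ℤ (Module.End ℚ M) c) (((m : ℚ) ^ n) • x) =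
        (c : ℚ) • (((m : ℚ) ^ n) • x) := by
      rw [Int.cast_smul_eq_zsmul]
      rfl
    rw [h1, smul_smul]
    push_cast
    rfl

lemma polyAct_eq {k₀ : Type u} [Field k₀] {𝒱₀ : VarClass k₀} {K : Type w} [Field K]
    {C₀ : TheoryData.{u, v, 0} 𝒱₀ ℚ} (H₀ : WeilTheoryData.{u, v, w} C₀ K) {X : 𝒱₀.Obj}
    (φ : X ⟶ X) (P : Polynomial ℤ) (a : H₀.A X) :
    polyAct H₀ φ P a =
      Polynomial.aeval ((H₀.pull φ).toLinearMap : Module.End K (H₀.A X)) P a := by
  have hp : ∀ n : ℕ, (H₀.up φ)^[n] a =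
      (((H₀.pull φ).toLinearMap : Module.End K (H₀.A X)) ^ n) a := by
    intro n
    rw [Module.End.pow_apply]
    rfl
  rw [Polynomial.aeval_def, Polynomial.eval₂_eq_sum, Polynomial.sum_def, LinearMap.sum_apply,
    polyAct, Polynomial.sum_def]
  apply Finset.sum_congr rfl
  intro n _
  rw [hp, Module.End.mul_apply]
  rfl

section one

variable {k : Type u} [Field k] {𝒱 : VarClass k} {K : Type w} [Field K]
  {C : TheoryData.{u, v, 0} 𝒱 ℚ} [hC : IsChowProj C]
  {H : WeilTheoryData.{u, v, w} C K} [hH : IsWeilProj H]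

/-- A homologically trivial class which is an eigenvector of an endomorphism with an eigenvalue
which does not occur in lower cohomological degrees vanishes, if there is a Bloch-Beilinson
filtration. -/
theorem eq_zero_of_frob (hK : KunnethConjecture H) {F : Filtration C} (hF : IsBB H F) {Y : 𝒱.Obj}
    (φ : Y ⟶ Y) {i : ℕ} {m : ℤ} {y : C.A Y} (hy : C.Deg i y) (hy0 : H.cl y = 0)
    (hφ : C.pull φ y = (m : ℚ) • y)
    (hP : ∀ n : ℕ, 0 < n → ∃ P : Polynomial ℤ, P.eval m ≠ 0 ∧
      ∀ a : H.A Y, H.Deg (2 * i - n) a → polyAct H φ P a = 0) : y = 0 := by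
  have hstep : ∀ n : ℕ, 0 < n → F.Mem i n y → F.Mem i (n + 1) y := by
    intro n hn hx
    obtain ⟨P, hP1, hP2⟩ := hP n hn
    let φ' : Cor C Y := C.cograph φ
    have hφ' : φ' ∈ cor0 C Y := by
      have h := C.push_mem (Obj.lift φ (𝟙 Y)) (C.one_mem Y)
      have e1 : (0 : ℤ) + 1 * (((Y.prod Y).dim : ℤ) - (Y.dim : ℤ)) = Y.dim := by
        rw [dim_prod]; push_cast; ring
      rw [mem_cor0]
      rwa [e1] at h
    let Γ : Cor C Y := Polynomial.aeval φ' P
    have hΓ : Γ ∈ cor0 C Y := by
      change Polynomial.aeval φ' P ∈ cor0 C Y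
      clear hP1 hP2
      induction P using Polynomial.induction_on' with
      | add P Q hP hQ => rw [map_add]; exact add_mem hP hQ
      | monomial n c =>
        rw [Polynomial.aeval_monomial]
        exact mul_mem (intCast_mem (cor0 C Y) c) (pow_mem hφ' n)
    have h1 : actC C Y Γ = Polynomial.aeval (actC C Y φ') P := by
      change (actC C Y).toIntAlgHom _ = _
      rw [← Polynomial.aeval_algHom_apply]
      rfl
    have h2 : actH C Y H Γ = Polynomial.aeval (actH C Y H φ') P := by
      change (actH C Y H).toIntAlgHom _ = _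
      rw [← Polynomial.aeval_algHom_apply]
      rfl
    have h3 : actH C Y H φ' = (H.pull φ).toLinearMap := by
      apply LinearMap.ext
      intro a
      rw [actH_apply]
      have : H.cl (C.cograph φ) = H.cograph φ := by
        rw [TheoryData.cograph, TheoryData.cograph, H.cl_push, map_one]
      change H.act (H.cl (C.cograph φ)) a = _
      rw [this, H.act_cograph]
      rfl
    have h4 : actC C Y φ' y = (m : ℚ) • y := by
      rw [actC_apply]
      change C.act (C.cograph φ) y = _
      rw [C.act_cograph, hφ]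
    have h5 : C.act (X := Y) (Y := Y) Γ y = ((P.eval m : ℤ) : ℚ) • y := by
      rw [← actC_apply, h1]
      exact aeval_apply_eigen _ y _ h4 P
    have h6 : Kills H (X := Y) (Y := Y) Γ (2 * i - n) := by
      intro a ha
      rw [← actH_apply, h2, h3, ← polyAct_eq]
      exact hP2 a ha
    have h7 := hF.motivic hK Y i n Γ hΓ h6 y hx
    rw [h5] at h7
    have h8 : ((P.eval m : ℤ) : ℚ) ≠ 0 := by exact_mod_cast hP1
    exact (Submodule.smul_mem_iff _ h8).1 h7
  have hfar : ∀ n : ℕ, F.Mem i (1 + n) y := by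
    intro n
    induction n with
    | zero => exact (hF.bounded.one Y i y).2 ⟨hy, hy0⟩
    | succ n ih => exact hstep (1 + n) (by omega) ih
  have h2 := hfar i
  rw [add_comm] at h2
  exact hF.bounded.top Y i y h2

end one

section two

variable {k₀ : Type u} [Field k₀] {𝒱₀ : VarClass k₀} {k : Type u} [Field k] {𝒱 : VarClass k}
  {K : Type w} [Field K] {C₀ : TheoryData.{u, v, 0} 𝒱₀ ℚ} {C : TheoryData.{u, v', 0} 𝒱 ℚ}
  [hC₀ : IsChowProj C₀] [hC : IsChowProj C]
  {H₀ : WeilTheoryData.{u, v, w} C₀ K} {H : WeilTheoryData.{u, v', w} C K}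
  [hH₀ : IsWeilProj H₀] [hH : IsWeilProj H] {B : 𝒱₀.Obj}

omit hC hH in
/-- Over a finite field, the existence of a Bloch-Beilinson filtration implies that homological and
rational equivalence agree. -/
theorem homEqRat_of_isBB {q : ℕ} (hq : HasFrobenius H₀ q) (hK : KunnethConjecture H₀)
    {F : Filtration C₀} (hF : IsBB H₀ F) (X : 𝒱₀.Obj) : HomEqRat H₀ X := by
  intro i z hz hz0
  obtain ⟨φ, hφ, hP⟩ := hq X
  refine eq_zero_of_frob hK hF φ (m := (q : ℤ) ^ i) hz hz0 ?_ fun n hn =>
    hP i (2 * i - n) (by omega)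
  have := hφ i z hz
  push_cast
  exact this

/-- Over a finite field, the existence of a Bloch-Beilinson filtration for the constant varieties
over one function field implies that homological and rational equivalence agree. -/
theorem homEqRat_of_isBB_constant (S : CVData H₀ B H) {q : ℕ} (hq : HasFrobenius H₀ q)
    (hK : KunnethConjecture H₀) {F : Filtration C} (hF : IsBB H F) (X : 𝒱₀.Obj) :
    HomEqRat H₀ X := by
  intro i z hz hz0
  obtain ⟨φ, hφ, hP⟩ := hq X
  obtain ⟨b, hb, hb1⟩ := exists_point (C₀ := C₀) (B := B)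
  have hfib : C₀.down (fst X B) (C₀.mul (C₀.pull (fst X B) z) (C₀.up (snd X B) b)) = z := by
    change C₀.push _ (C₀.pull _ _ * C₀.pull _ _) = _
    rw [C₀.proj_left, (hb1 X).2, one_smul, mul_one]
  have hy : C.Deg i (S.res X (C₀.pull (fst X B) z)) := S.res_deg X i _ (C₀.pull_mem _ hz)
  have hy0 : H.cl (S.res X (C₀.pull (fst X B) z)) = 0 := by
    rw [S.cl_res X b hb hb1, hfib, hz0, map_zero]
  have hcoh : ∀ (n : ℕ) (a : H₀.A X), (H.up (S.bc.map φ))^[n] (S.coh X a) =
      S.coh X ((H₀.up φ)^[n] a) := by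
    intro n
    induction n with
    | zero => intro a; rfl
    | succ n ih =>
      intro a
      rw [Function.iterate_succ_apply, Function.iterate_succ_apply, ← ih]
      congr 1
      exact (S.coh_pull φ a).symm
  have hpoly : ∀ (P : Polynomial ℤ) (a : H₀.A X), polyAct H (S.bc.map φ) P (S.coh X a) =
      S.coh X (polyAct H₀ φ P a) := by
    intro P a
    rw [polyAct, polyAct, Polynomial.sum_def, Polynomial.sum_def, map_sum]
    refine Finset.sum_congr rfl fun n _ => ?_
    rw [hcoh, map_zsmul]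
  have hzero : S.res X (C₀.pull (fst X B) z) = 0 := by
    refine eq_zero_of_frob (kunneth_constant S hK) hF (S.bc.map φ) (m := (q : ℤ) ^ i) hy hy0 ?_
      fun n hn => ?_
    · have h1 : C.pull (S.bc.map φ) (S.res X (C₀.pull (fst X B) z)) =
          S.res X (C₀.pull (prodMap φ (𝟙 B)) (C₀.pull (fst X B) z)) := (S.res_pull φ _).symm
      have h2 : C₀.pull (prodMap φ (𝟙 B)) (C₀.pull (fst X B) z) =
          C₀.pull (fst X B) (C₀.pull φ z) := by
        rw [← C₀.pull_comp, ← C₀.pull_comp, prodMap_fst]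
      have h3 : C₀.pull φ z = ((q : ℚ) ^ i) • z := hφ i z hz
      rw [h1, h2, h3, map_smul, map_smul]
      push_cast
      rfl
    · obtain ⟨P, hP1, hP2⟩ := hP i (2 * i - n) (by omega)
      refine ⟨P, hP1, fun a ha => ?_⟩
      obtain ⟨a₀, rfl⟩ := (S.coh X).surjective a
      rw [hpoly, hP2 a₀ ((S.coh_deg X _ a₀).1 ha), map_zero]
  rw [← hfib]
  exact S.res_special X _ b hb hb1 hzero

end two

end Pool.Agent.TH117.CV
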