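import Pool.Agent.TH117.CV.Wt

/-!
# Vanishing of restrictions to the generic fibre, from the Lefschetz standard conjecture
-/

open CategoryTheory AlgebraicGeometry

set_option autoImplicit false

universe u v v' w

namespace Pool.Agent.TH117.CV

open Pool.Agent.H914 Pool.Agent.H914.VarClass Pool.Agent.H914.VarClass.Obj Pool.Agent.W492.BB
  Pool.Agent.W550.Corr Pool.Agent.TH133

section one

variable {k : Type u} [Field k] {𝒱 : VarClass k} {C : TheoryData.{u, v, 0} 𝒱 ℚ}
  [hC : IsChowProj C] {K : Type w} [Field K] (H : WeilTheoryData.{u, v, w} C K)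
  [hH : IsWeilProj H] {X Y Z B : 𝒱.Obj}

omit hH in
lemma extL_mem {e i : ℤ} {Γ : C.A (X.prod Y)} (hΓ : Γ ∈ C.gr (X.prod Y) (X.dim + e))
    {z : C.A (X.prod Z)} (hz : z ∈ C.gr (X.prod Z) i) :
    C.extL Γ Z z ∈ C.gr (Y.prod Z) (i + e) := by
  have h := C.push_mem (t23 X Y Z) (C.mul_mem (C.pull_mem (fst (X.prod Y) Z) hΓ)
    (C.pull_mem (t13 X Y Z) hz))
  have e1 : (X.dim : ℤ) + e + i + 1 * (((Y.prod Z).dim : ℤ) - (((X.prod Y).prod Z).dim : ℤ)) =
      i + e := by
    rw [dim_prod, dim_prod, dim_prod]; push_cast; ring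
  rwa [e1] at h

omit hH in
lemma extR_mem {e i : ℤ} {Γ : C.A (X.prod Y)} (hΓ : Γ ∈ C.gr (X.prod Y) (X.dim + e))
    {z : C.A (Z.prod X)} (hz : z ∈ C.gr (Z.prod X) i) :
    C.extR Γ Z z ∈ C.gr (Z.prod Y) (i + e) := by
  have h := C.push_mem (u13 Z X Y) (C.mul_mem (C.pull_mem (snd Z (X.prod Y)) hΓ)
    (C.pull_mem (u12 Z X Y) hz))
  have e1 : (X.dim : ℤ) + e + i + 1 * (((Z.prod Y).dim : ℤ) - ((Z.prod (X.prod Y)).dim : ℤ)) =
      i + e := by
    rw [dim_prod, dim_prod, dim_prod]; push_cast; ring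
  rwa [e1] at h

lemma cl_extL (Γ : C.A (X.prod Y)) (z : C.A (X.prod Z)) :
    H.cl (C.extL Γ Z z) = H.extL (H.cl Γ) Z (H.cl z) := by
  rw [TheoryData.extL, TheoryData.extL, H.cl_push, map_mul H.cl, H.cl_pull, H.cl_pull]

lemma cl_extR (Γ : C.A (X.prod Y)) (z : C.A (Z.prod X)) :
    H.cl (C.extR Γ Z z) = H.extR (H.cl Γ) Z (H.cl z) := by
  rw [TheoryData.extR, TheoryData.extR, H.cl_push, map_mul H.cl, H.cl_pull, H.cl_pull]

lemma extR_cl_ext (Γ : C.A (X.prod Y)) (a : H.A Z) (b : H.A X) :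
    H.extR (H.cl Γ) Z (H.ext a b) = H.ext a (H.act (H.cl Γ) b) :=
  H.extR_ext _ (fun c => by rw [← H.cl_pull, H.cl_central]) a b

/-- The transpose of an inverse of the Lefschetz operator is an inverse on the other side. -/
lemma lef_right {h : C.A B} {j : ℕ} (hj : j < B.dim) {u : C.A (B.prod B)} (hh : C.Deg 1 h)
    (hu : C.Deg j u)
    (hinv : ∀ a : H.A B, H.Deg j a → H.act (H.cl u) (H.mul (H.cl (h ^ (B.dim - j))) a) = a)
    {b : H.A B} (hb : b ∈ H.gr B (2 * B.dim - j)) :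
    H.cl (h ^ (B.dim - j)) * H.act (H.cl (tp C u)) b = b := by
  have hpow : ∀ n : ℕ, h ^ n ∈ C.gr B n := by
    intro n
    induction n with
    | zero => rw [pow_zero]; exact C.one_mem B
    | succ n ih =>
      rw [pow_succ]
      have := C.mul_mem ih hh
      push_cast
      exact this
  rw [← sub_eq_zero]
  apply H.nondeg
  have h0 : (H.tr B ∘ₗ LinearMap.mulLeft K
      (H.cl (h ^ (B.dim - j)) * H.act (H.cl (tp C u)) b - b)) = 0 := by
    apply ext_gr H
    intro l y hy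
    rw [LinearMap.comp_apply, LinearMap.mulLeft_apply, LinearMap.zero_apply]
    have hm : H.cl (h ^ (B.dim - j)) * H.act (H.cl (tp C u)) b - b ∈
        H.gr B (2 * B.dim - j) := by
      apply Submodule.sub_mem _ _ hb
      have h1 := actH_mem H (X := B) (Y := B) (e := (j : ℤ) - B.dim) (Γ := tp C u) (by
        have := tp_mem C hu
        rwa [show (B.dim : ℤ) + (j - B.dim) = j by ring]) hb
      have h2 := H.mul_mem (H.cl_mem (hpow (B.dim - j))) h1
      have e1 : 2 * ((B.dim - j : ℕ) : ℤ) + (2 * B.dim - j + 2 * ((j : ℤ) - B.dim)) =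
          2 * B.dim - j := by
        rw [Nat.cast_sub hj.le]; ring
      rwa [e1] at h2
    by_cases hl : l = j
    · subst hl
      have h3 : H.cl (h ^ (B.dim - j)) * H.act (H.cl (tp C u)) b * y =
          H.act (H.cl (tp C u)) b * (H.cl (h ^ (B.dim - j)) * y) := by
        rw [H.cl_central, mul_assoc]
      rw [sub_mul, map_sub, h3, tr_act']
      have h4 : H.act (H.cl u) (H.cl (h ^ (B.dim - j)) * y) = y := hinv y hy
      rw [h4, sub_self]
    · exact tr_zero H (H.mul_mem hm hy) (by omega)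
  intro y
  exact LinearMap.congr_fun h0 y

end one

section two

variable {k₀ : Type u} [Field k₀] {𝒱₀ : VarClass k₀} {k : Type u} [Field k] {𝒱 : VarClass k}
  {K : Type w} [Field K] {C₀ : TheoryData.{u, v, 0} 𝒱₀ ℚ} {C : TheoryData.{u, v', 0} 𝒱 ℚ}
  [hC₀ : IsChowProj C₀] [hC : IsChowProj C]
  {H₀ : WeilTheoryData.{u, v, w} C₀ K} {H : WeilTheoryData.{u, v', w} C K}
  [hH₀ : IsWeilProj H₀] [hH : IsWeilProj H] {B : 𝒱₀.Obj}
  (S : CVData H₀ B H) {X Y : 𝒱₀.Obj}

include hC₀ hC hH₀ hH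

/-- Classes all of whose Kunneth components have degree greater than `i` in `B` restrict to zero on
the generic fibre: the Lefschetz standard conjecture for `X`. -/
lemma res_eq_zero_of_wt (hK : KunnethConjecture H₀) (hL : TH613.MC.LefschetzInverse H₀)
    (hR : HomEqRat H₀ (X.prod B)) {i : ℕ} {z : C₀.A (X.prod B)} (hz : z ∈ C₀.gr (X.prod B) i)
    (hw : H₀.cl z ∈ wt H₀ X B (i + 1) (2 * i)) : S.res X z = 0 := by
  by_cases hi : X.dim < i
  · exact hC.gr_top _ i _ (S.res_deg X i z hz) (by rw [S.dim_bc]; exact_mod_cast hi)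
  obtain ⟨h, hh, hu⟩ := hL X
  have hpow : ∀ n : ℕ, h ^ n ∈ C₀.gr X n := by
    intro n
    induction n with
    | zero => rw [pow_zero]; exact C₀.one_mem X
    | succ n ih =>
      rw [pow_succ]
      have := C₀.mul_mem ih hh
      push_cast
      exact this
  choose p hp hp' using fun j : ℕ => hK X j
  have hu' : ∀ j : ℕ, ∃ u : C₀.A (X.prod X), j < X.dim → C₀.Deg j u ∧ ∀ a : H₀.A X,
      H₀.Deg j a → H₀.act (H₀.cl u) (H₀.mul (H₀.cl (h ^ (X.dim - j))) a) = a := by
    intro j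
    by_cases hj : j < X.dim
    · obtain ⟨u, hu1, hu2⟩ := hu j hj
      exact ⟨u, fun _ => ⟨hu1, hu2⟩⟩
    · exact ⟨0, fun h => absurd h hj⟩
  choose u hu using hu'
  -- the operators
  let W : ℕ → C₀.A (X.prod B) := fun j =>
    C₀.pull (fst X B) (h ^ (X.dim - j)) * C₀.extL (p j) B z
  let T : ℕ → C₀.A (X.prod B) := fun j => C₀.extL (u j) B (W j)
  have hW : ∀ j < i, W j ∈ C₀.gr (X.prod B) (((X.dim - j : ℕ) : ℤ) + i) := by
    intro j _
    have h1 := extL_mem (C := C₀) (Y := X) (e := 0) (Γ := p j) (by rw [add_zero]; exact hp j) hz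
    rw [add_zero] at h1
    exact C₀.mul_mem (C₀.pull_mem (fst X B) (hpow (X.dim - j))) h1
  have hT : ∀ j < i, T j ∈ C₀.gr (X.prod B) i := by
    intro j hj
    have h1 := (hu j (by omega)).1
    have h2 := extL_mem (C := C₀) (Y := X) (e := (j : ℤ) - X.dim) (Γ := u j)
      (by rw [show (X.dim : ℤ) + (j - X.dim) = j by ring]; exact h1) (hW j hj)
    have e1 : ((X.dim - j : ℕ) : ℤ) + i + (j - X.dim) = i := by
      rw [Nat.cast_sub (by omega)]; ring
    rwa [e1] at h2
  have hTres : ∀ j < i, S.res X (T j) = 0 := by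
    intro j hj
    have h1 : S.res X (W j) = 0 := hC.gr_top _ _ _ (S.res_deg X _ _ (hW j hj)) (by
      rw [S.dim_bc, Nat.cast_sub (by omega)]; omega)
    have h2 : S.res X (T j) = C.push (S.bc.map (snd X X))
        (S.res (X.prod X) (C₀.pull (fst (X.prod X) B) (u j) * C₀.pull (t13 X X B) (W j))) :=
      S.res_push (snd X X) _
    have h3 : S.res (X.prod X) (C₀.pull (t13 X X B) (W j)) =
        C.pull (S.bc.map (fst X X)) (S.res X (W j)) := S.res_pull (fst X X) _
    rw [h2, map_mul, h3, h1, map_zero, mul_zero, map_zero]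
  -- the operators in cohomology
  let L : ℕ → (H₀.A (X.prod B) →ₗ[K] H₀.A (X.prod B)) := fun j =>
    H₀.extLL (H₀.cl (u j)) B ∘ₗ LinearMap.mulLeft K (H₀.pull (fst X B)
      (H₀.cl (h ^ (X.dim - j)))) ∘ₗ H₀.extLL (H₀.cl (p j)) B
  have hLT : ∀ j, H₀.cl (T j) = L j (H₀.cl z) := by
    intro j
    change H₀.cl (C₀.extL (u j) B (C₀.pull (fst X B) (h ^ (X.dim - j)) *
      C₀.extL (p j) B z)) = H₀.extL _ _ (H₀.pull _ _ * H₀.extL _ _ _)
    rw [cl_extL, map_mul H₀.cl, cl_extL, H₀.cl_pull]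
  have hLext : ∀ (l : ℤ) (a : H₀.A X) (b : H₀.A B), a ∈ H₀.gr X l → ∀ j < i,
      L j (H₀.ext a b) = if l = j then H₀.ext a b else 0 := by
    intro l a b ha j hj
    change H₀.extL _ _ (H₀.pull _ _ * H₀.extL _ _ (H₀.ext a b)) = _
    rw [H₀.extL_ext, hp' j l a ha]
    split_ifs with h1
    · subst h1
      have h2 : H₀.pull (fst X B) (H₀.cl (h ^ (X.dim - j))) * H₀.ext a b =
          H₀.ext (H₀.cl (h ^ (X.dim - j)) * a) b := by
        rw [TheoryData.ext, TheoryData.ext, map_mul, mul_assoc]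
      have h3 : H₀.act (H₀.cl (u j)) (H₀.cl (h ^ (X.dim - j)) * a) = a :=
        (hu j (by omega)).2 a ha
      rw [h2, H₀.extL_ext, h3]
    · have h2 : H₀.ext (0 : H₀.A X) b = 0 := TheoryData.ext_zero_left _ _
      have h3 : H₀.extL (H₀.cl (u j)) B (0 : H₀.A (X.prod B)) = 0 :=
        map_zero (H₀.extLL (H₀.cl (u j)) B)
      rw [h2, mul_zero, h3]
  have hsum : ∑ j ∈ Finset.range i, L j (H₀.cl z) = H₀.cl z := by
    have h1 : (∑ j ∈ Finset.range i, L j) (H₀.cl z) = (LinearMap.id :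
        H₀.A (X.prod B) →ₗ[K] H₀.A (X.prod B)) (H₀.cl z) := by
      refine (Submodule.span_le (p := LinearMap.eqLocus _ _)).2 ?_ hw
      rintro _ ⟨m, a, b, hm, ha, hb, rfl⟩
      change (∑ j ∈ Finset.range i, L j) (H₀.ext a b) = H₀.ext a b
      rw [LinearMap.sum_apply, Finset.sum_congr rfl
        (fun j hj => hLext _ a b ha j (Finset.mem_range.1 hj))]
      by_cases h0 : 0 ≤ 2 * (i : ℤ) - m
      · obtain ⟨l, hl⟩ := Int.eq_ofNat_of_zero_le h0
        have e1 : ∀ j : ℕ, (2 * (i : ℤ) - m = j) ↔ l = j := fun j => by omega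
        simp only [e1]
        rw [Finset.sum_ite_eq, if_pos (Finset.mem_range.2 (by omega))]
      · have ha0 : a = 0 := by
          rw [H₀.gr_neg X _ (by omega)] at ha
          exact (Submodule.mem_bot _).1 ha
        have h2 : H₀.ext a b = 0 := by rw [ha0]; exact TheoryData.ext_zero_left _ _
        rw [h2]
        simp
    rw [LinearMap.sum_apply] at h1
    exact h1
  have hfin : z - ∑ j ∈ Finset.range i, T j = 0 := by
    apply hR i
    · exact Submodule.sub_mem _ hz (Submodule.sum_mem _ fun j hj => hT j (Finset.mem_range.1 hj))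
    · rw [map_sub, map_sum, Finset.sum_congr rfl (fun j _ => hLT j), hsum, sub_self]
  rw [sub_eq_zero.1 hfin, map_sum]
  exact Finset.sum_eq_zero fun j hj => hTres j (Finset.mem_range.1 hj)

/-- Classes all of whose Kunneth components have degree greater than `dim B` in `B` restrict to zero
on the generic fibre: the Lefschetz standard conjecture for `B`. -/
lemma res_eq_zero_of_wt' (hK : KunnethConjecture H₀) (hL : TH613.MC.LefschetzInverse H₀)
    (hR : HomEqRat H₀ (X.prod B)) {i : ℕ} {z : C₀.A (X.prod B)} (hz : z ∈ C₀.gr (X.prod B) i)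
    (hw : H₀.cl z ∈ wt H₀ X B (B.dim + 1) (2 * i)) : S.res X z = 0 := by
  obtain ⟨h, hh, hu⟩ := hL B
  have hpow : ∀ n : ℕ, h ^ n ∈ C₀.gr B n := by
    intro n
    induction n with
    | zero => rw [pow_zero]; exact C₀.one_mem B
    | succ n ih =>
      rw [pow_succ]
      have := C₀.mul_mem ih hh
      push_cast
      exact this
  choose p hp hp' using fun j : ℕ => hK B j
  have hu' : ∀ j : ℕ, ∃ u : C₀.A (B.prod B), j < B.dim → C₀.Deg j u ∧ ∀ a : H₀.A B,
      H₀.Deg j a → H₀.act (H₀.cl u) (H₀.mul (H₀.cl (h ^ (B.dim - j))) a) = a := by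
    intro j
    by_cases hj : j < B.dim
    · obtain ⟨u, hu1, hu2⟩ := hu j hj
      exact ⟨u, fun _ => ⟨hu1, hu2⟩⟩
    · exact ⟨0, fun h => absurd h hj⟩
  choose u hu using hu'
  -- the operators: `j < dim B` corresponds to the degree `2 dim B - j` in `B`
  let T : ℕ → C₀.A (X.prod B) := fun j => C₀.pull (snd X B) (h ^ (B.dim - j)) *
    C₀.extR (tp C₀ (u j)) X (C₀.extR (p (2 * B.dim - j)) X z)
  have hT : ∀ j < B.dim, T j ∈ C₀.gr (X.prod B) i := by
    intro j hj
    have h1 := extR_mem (C := C₀) (Y := B) (Z := X) (e := 0) (Γ := p (2 * B.dim - j))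
      (by rw [add_zero]; exact hp _) hz
    rw [add_zero] at h1
    have h2 := extR_mem (C := C₀) (Y := B) (Z := X) (e := (j : ℤ) - B.dim) (Γ := tp C₀ (u j))
      (by
        have := tp_mem C₀ (hu j hj).1
        rwa [show (B.dim : ℤ) + (j - B.dim) = j by ring]) h1
    have h3 := C₀.mul_mem (C₀.pull_mem (snd X B) (hpow (B.dim - j))) h2
    have e1 : ((B.dim - j : ℕ) : ℤ) + (i + (j - B.dim)) = i := by
      rw [Nat.cast_sub (by omega)]; ring
    rwa [e1] at h3
  have hTres : ∀ j < B.dim, S.res X (T j) = 0 := by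
    intro j hj
    have h1 : S.res X (C₀.pull (snd X B) (h ^ (B.dim - j))) = 0 :=
      S.res_base X ((B.dim - j : ℕ) : ℤ) _ (by omega) (hpow _)
    change S.res X (_ * _) = 0
    rw [map_mul, h1, zero_mul]
  let L : ℕ → (H₀.A (X.prod B) →ₗ[K] H₀.A (X.prod B)) := fun j =>
    LinearMap.mulLeft K (H₀.pull (snd X B) (H₀.cl (h ^ (B.dim - j)))) ∘ₗ
      H₀.extRL (H₀.cl (tp C₀ (u j))) X ∘ₗ H₀.extRL (H₀.cl (p (2 * B.dim - j))) X
  have hLT : ∀ j, H₀.cl (T j) = L j (H₀.cl z) := by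
    intro j
    change H₀.cl (C₀.pull (snd X B) (h ^ (B.dim - j)) *
      C₀.extR (tp C₀ (u j)) X (C₀.extR (p (2 * B.dim - j)) X z)) =
        H₀.pull _ _ * H₀.extR _ _ (H₀.extR _ _ _)
    rw [map_mul H₀.cl, cl_extR, cl_extR, H₀.cl_pull]
  have hLext : ∀ (l : ℤ) (a : H₀.A X) (b : H₀.A B), b ∈ H₀.gr B l → ∀ j < B.dim,
      L j (H₀.ext a b) = if l = 2 * B.dim - j then H₀.ext a b else 0 := by
    intro l a b hb j hj
    change H₀.pull _ _ * H₀.extR _ _ (H₀.extR _ _ (H₀.ext a b)) = _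
    rw [extR_cl_ext, hp' _ l b hb]
    have e1 : (l = ((2 * B.dim - j : ℕ) : ℤ)) ↔ l = 2 * B.dim - j := by
      rw [Nat.cast_sub (by omega)]; push_cast; exact Iff.rfl
    simp only [e1]
    split_ifs with h1
    · subst h1
      rw [extR_cl_ext]
      have h2 : ∀ b' : H₀.A B, H₀.pull (snd X B) (H₀.cl (h ^ (B.dim - j))) * H₀.ext a b' =
          H₀.ext a (H₀.cl (h ^ (B.dim - j)) * b') := by
        intro b'
        rw [TheoryData.ext, TheoryData.ext, map_mul, ← mul_assoc, ← H₀.cl_pull, H₀.cl_central,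
          mul_assoc]
      rw [h2, lef_right H₀ hj hh (hu j hj).1 (hu j hj).2 hb]
    · have h2 : H₀.ext a (0 : H₀.A B) = 0 := TheoryData.ext_zero_right _ _
      have h3 : H₀.extR (H₀.cl (tp C₀ (u j))) X (0 : H₀.A (X.prod B)) = 0 :=
        map_zero (H₀.extRL (H₀.cl (tp C₀ (u j))) X)
      rw [h2, h3, mul_zero]
  have hsum : ∑ j ∈ Finset.range B.dim, L j (H₀.cl z) = H₀.cl z := by
    have h1 : (∑ j ∈ Finset.range B.dim, L j) (H₀.cl z) = (LinearMap.id :
        H₀.A (X.prod B) →ₗ[K] H₀.A (X.prod B)) (H₀.cl z) := by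
      refine (Submodule.span_le (p := LinearMap.eqLocus _ _)).2 ?_ hw
      rintro _ ⟨m, a, b, hm, ha, hb, rfl⟩
      change (∑ j ∈ Finset.range B.dim, L j) (H₀.ext a b) = H₀.ext a b
      rw [LinearMap.sum_apply, Finset.sum_congr rfl
        (fun j hj => hLext _ a b hb j (Finset.mem_range.1 hj))]
      by_cases h0 : m ≤ 2 * B.dim
      · obtain ⟨l, hl⟩ := Int.eq_ofNat_of_zero_le (sub_nonneg.2 h0)
        have e1 : ∀ j : ℕ, (m = 2 * (B.dim : ℤ) - j) ↔ l = j := fun j => by omega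
        simp only [e1]
        rw [Finset.sum_ite_eq, if_pos (Finset.mem_range.2 (by omega))]
      · have hb0 : b = 0 := by
          rw [TH133.gr_top H₀ (by omega)] at hb
          exact (Submodule.mem_bot _).1 hb
        have h2 : H₀.ext a b = 0 := by rw [hb0]; exact TheoryData.ext_zero_right _ _
        rw [h2]
        simp
    rw [LinearMap.sum_apply] at h1
    exact h1
  have hfin : z - ∑ j ∈ Finset.range B.dim, T j = 0 := by
    apply hR i
    · exact Submodule.sub_mem _ hz (Submodule.sum_mem _ fun j hj => hT j (Finset.mem_range.1 hj))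
    · rw [map_sub, map_sum, Finset.sum_congr rfl (fun j _ => hLT j), hsum, sub_self]
  rw [sub_eq_zero.1 hfin, map_sum]
  exact Finset.sum_eq_zero fun j hj => hTres j (Finset.mem_range.1 hj)

end two

end Pool.Agent.TH117.CV
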