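import Pool.Agent.TH117.CV.Lef

/-!
# The Bloch-Beilinson filtration for constant varieties over function fields
-/

open CategoryTheory AlgebraicGeometry

set_option autoImplicit false

universe u v v' w

namespace Pool.Agent.TH117.CV

open Pool.Agent.H914 Pool.Agent.H914.VarClass Pool.Agent.H914.VarClass.Obj Pool.Agent.W492.BB
  Pool.Agent.W550.Corr Pool.Agent.TH133

section iso

variable {k : Type u} [Field k] {𝒱 : VarClass k} {F : Type w} [Field F] {δ : ℤ}
  (T : TheoryData.{u, v, w} 𝒱 F) [hT : IsTheory T δ] [hI : HasIso T] {X Y Z W : 𝒱.Obj}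

include hT

lemma pull_inj (f : X ⟶ Y) (f' : Y ⟶ X) (h2 : f' ≫ f = 𝟙 Y) {a b : T.A Y}
    (h : T.pull f a = T.pull f b) : a = b := by
  have h3 : T.pull f' (T.pull f a) = T.pull f' (T.pull f b) := by rw [h]
  rwa [← T.pull_comp, ← T.pull_comp, h2, T.pull_id, T.pull_id] at h3

include hI

lemma pull_push_iso (f : X ⟶ Y) (f' : Y ⟶ X) (h1 : f ≫ f' = 𝟙 X) (h2 : f' ≫ f = 𝟙 Y) (a : T.A X) :
    T.pull f (T.push f a) = a := by
  rw [pull_iso T f f' h1 h2, ← T.push_comp, h1, T.push_id]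

/-- Change of the model of the action of a correspondence. -/
lemma pull_act (f : X ⟶ Y) (f' : Y ⟶ X) (h1 : f ≫ f' = 𝟙 X) (h2 : f' ≫ f = 𝟙 Y)
    (g : W ⟶ Y.prod Y) (g' : Y.prod Y ⟶ W) (h3 : g ≫ g' = 𝟙 W) (h4 : g' ≫ g = 𝟙 _)
    (p q : W ⟶ X) (hp : g ≫ fst Y Y = p ≫ f) (hq : g ≫ snd Y Y = q ≫ f)
    (γ : T.A (Y.prod Y)) (y : T.A Y) :
    T.pull f (T.act γ y) = T.push q (T.pull g γ * T.pull p (T.pull f y)) := by
  rw [T.act_apply, push_model T g g' h3 h4 (snd Y Y), hq, T.push_comp, pull_push_iso T f f' h1 h2,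
    map_mul, ← T.pull_comp g, hp, T.pull_comp]

end iso

section dims

variable {k : Type u} [Field k] {𝒱 : VarClass k} {C : TheoryData.{u, v, 0} 𝒱 ℚ}
  [hC : IsChowProj C] {K : Type w} [Field K] (H : WeilTheoryData.{u, v, w} C K)
  [hH : IsWeilProj H] {X Y Z B : 𝒱.Obj}

include hC hH

lemma dim_le_of_iso (f : X ⟶ Y) (f' : Y ⟶ X) (h2 : f' ≫ f = 𝟙 Y) : Y.dim ≤ X.dim := by
  by_contra hlt
  obtain ⟨h, hh, q, hq, hh'⟩ := hC.polarized Y
  have hpow : ∀ n : ℕ, h ^ n ∈ C.gr Y n := by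
    intro n
    induction n with
    | zero => rw [pow_zero]; exact C.one_mem Y
    | succ n ih =>
      rw [pow_succ]
      have := C.mul_mem ih hh
      push_cast
      exact this
  have h3 : C.pull f (h ^ Y.dim) = 0 := hC.gr_top X Y.dim _ (C.pull_mem f (hpow Y.dim)) (by
    push Not at hlt
    exact_mod_cast hlt)
  have h4 : h ^ Y.dim = 0 := pull_inj C f f' h2 (by rw [h3, map_zero])
  rw [h4] at hh'
  have h5 : q • (1 : C.A Y) = 0 := by
    rw [← hh']
    change C.push _ (C.pull _ 0) = 0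
    rw [map_zero, map_zero]
  have h6 : (1 : C.A Y) = 0 := (smul_eq_zero.1 h5).resolve_left hq
  apply hH.one_ne_zero Y
  rw [← map_one (H.cl (X := Y)), h6, map_zero]

lemma dim_eq_of_iso (f : X ⟶ Y) (f' : Y ⟶ X) (h1 : f ≫ f' = 𝟙 X) (h2 : f' ≫ f = 𝟙 Y) :
    X.dim = Y.dim :=
  le_antisymm (dim_le_of_iso H f' f h1) (dim_le_of_iso H f f' h2)

end dims

variable {k₀ : Type u} [Field k₀] {𝒱₀ : VarClass k₀} {k : Type u} [Field k] {𝒱 : VarClass k}
  {K : Type w} [Field K] {C₀ : TheoryData.{u, v, 0} 𝒱₀ ℚ} {C : TheoryData.{u, v', 0} 𝒱 ℚ}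
  [hC₀ : IsChowProj C₀] [hC : IsChowProj C]
  {H₀ : WeilTheoryData.{u, v, w} C₀ K} {H : WeilTheoryData.{u, v', w} C K}
  [hH₀ : IsWeilProj H₀] [hH : IsWeilProj H] {B : 𝒱₀.Obj}
  (S : CVData H₀ B H) {X : 𝒱₀.Obj} {Y : 𝒱.Obj}

omit hC₀ hC hH₀ hH in
/-- Models of `Y` and `Y × Y`. -/
lemma exists_model' {X : 𝒱₀.Obj} {Y : 𝒱.Obj} (f : S.bc.obj X ⟶ Y) (f' : Y ⟶ S.bc.obj X)
    (h1 : f ≫ f' = 𝟙 _) (h2 : f' ≫ f = 𝟙 _) :
    ∃ (g : S.bc.obj (X.prod X) ⟶ Y.prod Y) (g' : Y.prod Y ⟶ S.bc.obj (X.prod X)),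
    g ≫ g' = 𝟙 _ ∧ g' ≫ g = 𝟙 _ ∧
      g ≫ fst Y Y = S.bc.map (fst X X) ≫ f ∧ g ≫ snd Y Y = S.bc.map (snd X X) ≫ f := by
  have hP := S.isIso_prod X X
  let P := Obj.lift (S.bc.map (fst X X)) (S.bc.map (snd X X))
  have hP1 : P ≫ inv P = 𝟙 _ := IsIso.hom_inv_id P
  have hP2 : inv P ≫ P = 𝟙 _ := IsIso.inv_hom_id P
  have e1 : prodMap f f ≫ prodMap f' f' = 𝟙 _ := by
    apply prod_ext
    · simp only [Category.assoc, prodMap_fst, prodMap_fst_assoc, h1, Category.comp_id,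
        Category.id_comp]
    · simp only [Category.assoc, prodMap_snd, prodMap_snd_assoc, h1, Category.comp_id,
        Category.id_comp]
  have e2 : prodMap f' f' ≫ prodMap f f = 𝟙 _ := by
    apply prod_ext
    · simp only [Category.assoc, prodMap_fst, prodMap_fst_assoc, h2, Category.comp_id,
        Category.id_comp]
    · simp only [Category.assoc, prodMap_snd, prodMap_snd_assoc, h2, Category.comp_id,
        Category.id_comp]
  refine ⟨P ≫ prodMap f f, prodMap f' f' ≫ inv P, ?_, ?_, ?_, ?_⟩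
  · rw [Category.assoc, ← Category.assoc (prodMap f f), e1, Category.id_comp, hP1]
  · rw [Category.assoc, ← Category.assoc (inv P), hP2, Category.id_comp, e2]
  · rw [Category.assoc, prodMap_fst, ← Category.assoc, lift_fst]
  · rw [Category.assoc, prodMap_snd, ← Category.assoc, lift_snd]

omit hC₀ hC hH₀ hH in
/-- Models of `Y` and `Y × Y`. -/
lemma exists_model (Y : 𝒱.Obj) : ∃ (X : 𝒱₀.Obj) (f : S.bc.obj X ⟶ Y) (f' : Y ⟶ S.bc.obj X)
    (g : S.bc.obj (X.prod X) ⟶ Y.prod Y) (g' : Y.prod Y ⟶ S.bc.obj (X.prod X)),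
    f ≫ f' = 𝟙 _ ∧ f' ≫ f = 𝟙 _ ∧ g ≫ g' = 𝟙 _ ∧ g' ≫ g = 𝟙 _ ∧
      g ≫ fst Y Y = S.bc.map (fst X X) ≫ f ∧ g ≫ snd Y Y = S.bc.map (snd X X) ≫ f := by
  obtain ⟨X, ⟨e⟩⟩ := S.exists_iso Y
  obtain ⟨g, g', h3, h4, h5, h6⟩ := exists_model' S e.hom e.inv e.hom_inv_id e.inv_hom_id
  exact ⟨X, e.hom, e.inv, g, g', e.hom_inv_id, e.inv_hom_id, h3, h4, h5, h6⟩

include hC₀ hC hH₀ hH

omit hC₀ hC hH₀ hH in
lemma res_rel (γ : C₀.A ((X.prod X).prod B)) (z : C₀.A (X.prod B)) :
    S.res X (rel C₀ γ z) = C.push (S.bc.map (snd X X)) (S.res (X.prod X) γ *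
      C.pull (S.bc.map (fst X X)) (S.res X z)) := by
  have h1 : S.res X (rel C₀ γ z) = C.push (S.bc.map (snd X X))
      (S.res (X.prod X) (γ * C₀.pull (t13 X X B) z)) := S.res_push (snd X X) _
  have h2 : S.res (X.prod X) (C₀.pull (t13 X X B) z) =
      C.pull (S.bc.map (fst X X)) (S.res X z) := S.res_pull (fst X X) z
  rw [h1, map_mul, h2]

omit hC hH in
lemma cl_rel (γ : C₀.A ((X.prod X).prod B)) (z : C₀.A (X.prod B)) :
    H₀.cl (rel C₀ γ z) = rel H₀.toTheoryData (H₀.cl γ) (H₀.cl z) := by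
  rw [rel, rel, H₀.cl_push, map_mul H₀.cl, H₀.cl_pull]

omit hC₀ hC hH₀ hH in
lemma coh_act (g : C₀.A (X.prod X)) (a : H₀.A X) :
    S.coh X (H₀.act (H₀.cl g) a) = H.push (S.bc.map (snd X X)) (S.coh (X.prod X) (H₀.cl g) *
      H.pull (S.bc.map (fst X X)) (S.coh X a)) := by
  have h1 : S.coh X (H₀.act (H₀.cl g) a) = H.push (S.bc.map (snd X X))
      (S.coh (X.prod X) (H₀.cl g * H₀.pull (fst X X) a)) := S.coh_push (snd X X) _
  have h2 : S.coh (X.prod X) (H₀.pull (fst X X) a) =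
      H.pull (S.bc.map (fst X X)) (S.coh X a) := S.coh_pull (fst X X) a
  rw [h1, map_mul, h2]

omit hC hH₀ hH in
lemma exists_point : ∃ b : C₀.A B, b ∈ C₀.gr B B.dim ∧ HasDegree C₀ b 1 := by
  obtain ⟨b, hb, h1, h2⟩ := exists_deg_one C₀ B
  exact ⟨b, hb, fun Z => ⟨by rw [h2, one_smul], by rw [h1, one_smul]⟩⟩

/-- The main step: a correspondence acting as zero on `H^(2i-m)` for `0 < m < n` has a nilpotent
action on homologically trivial cycles of codimension `i`, if classes of degree at least `n` in `B`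
restrict to zero on the generic fibre. -/
theorem act_iterate_eq_zero (hg : GradedCommutative H₀) {n i : ℕ} (hn : 0 < n)
    (hres : ∀ (X : 𝒱₀.Obj) (z : C₀.A (X.prod B)), z ∈ C₀.gr (X.prod B) i →
      H₀.cl z ∈ wt H₀ X B n (2 * i) → S.res X z = 0)
    {Y : 𝒱.Obj} {γ : C.A (Y.prod Y)} (hγ : γ ∈ C.gr (Y.prod Y) Y.dim)
    (hkill : ∀ m : ℕ, 0 < m → m < n → Kills H γ (2 * i - m)) {y : C.A Y} (hy : y ∈ C.gr Y i)
    (hy0 : H.cl y = 0) : (C.act γ)^[n - 1] y = 0 := by
  obtain ⟨X, f, f', g, g', h1, h2, h3, h4, h5, h6⟩ := exists_model S Y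
  obtain ⟨b, hb, hb1⟩ := exists_point (C₀ := C₀) (B := B)
  have hdim : X.dim = Y.dim := by
    rw [← dim_eq_of_iso H f f' h1 h2, S.dim_bc]
  -- a lift of the correspondence
  have hγ' : C.pull g γ ∈ C.gr (S.bc.obj (X.prod X)) X.dim := by
    have := C.pull_mem g hγ
    rwa [← hdim] at this
  obtain ⟨γ₀, hγ₀, hγ₁⟩ := S.res_surj (X.prod X) X.dim _ hγ'
  let g₀ : C₀.A (X.prod X) := C₀.push (fst (X.prod X) B) (γ₀ * C₀.pull (snd (X.prod X) B) b)
  have hg₀ : S.coh (X.prod X) (H₀.cl g₀) = H.pull g (H.cl γ) := by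
    rw [← H.cl_pull, ← hγ₁]
    exact (S.cl_res (X.prod X) b hb hb1 γ₀).symm
  have hkill₀ : ∀ m : ℕ, 0 < m → m < n → Kills H₀ g₀ (2 * i - m) := by
    intro m hm hm' a ha
    have h7 : H.pull f (H.push f (S.coh X a)) = S.coh X a := pull_push_iso _ f f' h1 h2 _
    have h8 : H.push f (S.coh X a) ∈ H.gr Y (2 * i - m) := by
      have := H.push_mem f ((S.coh_deg X _ a).2 ha)
      rw [S.dim_bc, hdim, sub_self, mul_zero, add_zero] at this
      exact this
    have h9 := pull_act H.toTheoryData f f' h1 h2 g g' h3 h4 _ _ h5 h6 (H.cl γ)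
      (H.push f (S.coh X a))
    rw [h7, ← hg₀, ← coh_act] at h9
    have h10 : H.act (H.cl γ) (H.push f (S.coh X a)) = 0 := hkill m hm hm' _ h8
    rw [h10, map_zero] at h9
    exact (S.coh X).injective (by rw [← h9, map_zero])
  -- the lifts
  have key : ∀ m : ℕ, m < n → ∃ z : C₀.A (X.prod B), z ∈ C₀.gr (X.prod B) i ∧
      H₀.cl z ∈ wt H₀ X B (m + 1) (2 * i) ∧ S.res X z = C.pull f ((C.act γ)^[m] y) := by
    intro m
    induction m with
    | zero =>
      intro _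
      obtain ⟨z, hz, hz'⟩ := S.res_surj X i (C.pull f y) (C.pull_mem f hy)
      refine ⟨z, hz, ?_, hz'⟩
      have h7 := S.cl_res X b hb hb1 z
      rw [hz', H.cl_pull, hy0, map_zero] at h7
      have h8 : H₀.cl (C₀.down (fst X B) (C₀.mul z (C₀.up (snd X B) b))) = 0 :=
        (S.coh X).injective (by rw [← h7, map_zero])
      have h9 : fib H₀ X b (H₀.cl z) = 0 := by
        rw [← h8]
        change _ = H₀.cl (C₀.push (fst X B) (z * C₀.pull (snd X B) b))
        rw [H₀.cl_push, map_mul H₀.cl, H₀.cl_pull, fib]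
      have h10 := sub_fib_mem H₀ hb hb1 (mem_wt_zero (H₀.cl_mem hz))
      have h11 : H₀.ext (0 : H₀.A X) (1 : H₀.A B) = 0 := TheoryData.ext_zero_left _ _
      rw [h9, h11, sub_zero] at h10
      exact wt_congr h10 (by simp) rfl
    | succ m ih =>
      intro hm
      obtain ⟨z, hz, hz', hz''⟩ := ih (by omega)
      refine ⟨rel C₀ γ₀ z, ?_, ?_, ?_⟩
      · have h7 := C₀.push_mem (t23 X X B) (C₀.mul_mem hγ₀ (C₀.pull_mem (t13 X X B) hz))
        have e1 : (X.dim : ℤ) + i + 1 * (((X.prod B).dim : ℤ) -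
            (((X.prod X).prod B).dim : ℤ)) = i := by
          rw [dim_prod, dim_prod, dim_prod]; push_cast; ring
        rwa [e1] at h7
      · rw [cl_rel]
        have h7 := hkill₀ (m + 1) (by omega) hm
        have h8 := rel_wt H₀ hg hb hb1 hγ₀ (n := (m : ℤ) + 1) (N := 2 * i) (by
          push_cast at h7
          exact h7) hz'
        exact wt_congr h8 (by push_cast; ring) rfl
      · rw [res_rel, hγ₁, hz'', Function.iterate_succ_apply',
          pull_act C f f' h1 h2 g g' h3 h4 _ _ h5 h6]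
  obtain ⟨z, hz, hz', hz''⟩ := key (n - 1) (by omega)
  have h7 : S.res X z = 0 := hres X z hz (wt_congr hz' (by omega) rfl)
  rw [h7] at hz''
  exact pull_inj C f f' h2 (by rw [← hz'', map_zero])

/-- The correspondence on `Y × Y` induced by a correspondence over `k₀`. -/
theorem exists_constant {X : 𝒱₀.Obj} {Y : 𝒱.Obj} (f : S.bc.obj X ⟶ Y) (f' : Y ⟶ S.bc.obj X)
    (h1 : f ≫ f' = 𝟙 _) (h2 : f' ≫ f = 𝟙 _) {p : C₀.A (X.prod X)}
    (hp : p ∈ C₀.gr (X.prod X) X.dim) : ∃ P : C.A (Y.prod Y), P ∈ C.gr (Y.prod Y) Y.dim ∧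
      (∀ (a : H.A Y) (a₀ : H₀.A X), S.coh X a₀ = H.pull f a →
        H.pull f (H.act (H.cl P) a) = S.coh X (H₀.act (H₀.cl p) a₀)) ∧
      ∀ (y : C.A Y) (z : C₀.A (X.prod B)), S.res X z = C.pull f y →
        C.pull f (C.act P y) = S.res X (C₀.extL p B z) := by
  obtain ⟨g, g', h3, h4, h5, h6⟩ := exists_model' S f f' h1 h2
  obtain ⟨b, hb, hb1⟩ := exists_point (C₀ := C₀) (B := B)
  have hdim : X.dim = Y.dim := by
    rw [← dim_eq_of_iso H f f' h1 h2, S.dim_bc]
  have hres : S.res (X.prod X) (C₀.pull (fst (X.prod X) B) p) ∈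
      C.gr (S.bc.obj (X.prod X)) X.dim :=
    S.res_deg _ _ _ (C₀.pull_mem _ hp)
  refine ⟨C.push g (S.res (X.prod X) (C₀.pull (fst (X.prod X) B) p)), ?_, fun a a₀ ha => ?_,
    fun y z hyz => ?_⟩
  · have h7 := C.push_mem g hres
    have e1 : (X.dim : ℤ) + 1 * (((Y.prod Y).dim : ℤ) - ((S.bc.obj (X.prod X)).dim : ℤ)) =
        Y.dim := by
      rw [S.dim_bc, dim_prod, dim_prod, hdim]; push_cast; ring
    rwa [e1] at h7
  · rw [pull_act H.toTheoryData f f' h1 h2 g g' h3 h4 _ _ h5 h6, ← H.cl_pull,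
      pull_push_iso C g g' h3 h4, S.cl_res (X.prod X) b hb hb1]
    have h7 : C₀.down (fst (X.prod X) B) (C₀.mul (C₀.pull (fst (X.prod X) B) p)
        (C₀.up (snd (X.prod X) B) b)) = p := by
      change C₀.push _ (C₀.pull _ _ * C₀.pull _ _) = _
      rw [C₀.proj_left, (hb1 (X.prod X)).2, one_smul, mul_one]
    rw [h7, ← ha, ← coh_act]
  · rw [pull_act C f f' h1 h2 g g' h3 h4 _ _ h5 h6, pull_push_iso C g g' h3 h4, ← hyz, ← res_rel]
    rfl

/-- The Kunneth projectors of constant varieties. -/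
theorem exists_projector {X : 𝒱₀.Obj} {Y : 𝒱.Obj} (f : S.bc.obj X ⟶ Y) (f' : Y ⟶ S.bc.obj X)
    (h1 : f ≫ f' = 𝟙 _) (h2 : f' ≫ f = 𝟙 _) {p : C₀.A (X.prod X)}
    (hp : p ∈ C₀.gr (X.prod X) X.dim) {m : ℕ} (hp' : ∀ (l : ℤ) (a : H₀.A X), H₀.Deg l a →
      H₀.act (H₀.cl p) a = if l = m then a else 0) :
    ∃ P : C.A (Y.prod Y), P ∈ C.gr (Y.prod Y) Y.dim ∧ (∀ (l : ℤ) (a : H.A Y), H.Deg l a →
      H.act (H.cl P) a = if l = m then a else 0) ∧
      ∀ (y : C.A Y) (z : C₀.A (X.prod B)), S.res X z = C.pull f y →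
        C.pull f (C.act P y) = S.res X (C₀.extL p B z) := by
  obtain ⟨P, hP, hP1, hP2⟩ := exists_constant S f f' h1 h2 hp
  refine ⟨P, hP, fun l a ha => ?_, hP2⟩
  apply pull_inj H.toTheoryData f f' h2
  obtain ⟨a₀, ha₀⟩ := (S.coh X).surjective (H.pull f a)
  have ha₁ : a₀ ∈ H₀.gr X l := by
    rw [← TheoryData.Deg, ← S.coh_deg, ha₀]
    exact H.pull_mem f ha
  rw [hP1 a a₀ ha₀, hp' l a₀ ha₁]
  split_ifs
  · rw [ha₀]
  · rw [map_zero, map_zero]

include S in
/-- The Kunneth standard conjecture for the constant varieties. -/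
theorem kunneth_constant (hK : KunnethConjecture H₀) : KunnethConjecture H := by
  intro Y m
  obtain ⟨X, f, f', g, g', h1, h2, h3, h4, h5, h6⟩ := exists_model S Y
  obtain ⟨p, hp, hp'⟩ := hK X m
  obtain ⟨P, hP, hP1, _⟩ := exists_projector S f f' h1 h2 hp hp'
  exact ⟨P, hP, hP1⟩

include S in
/-- **Bloch-Beilinson filtrations for constant varieties.** -/
theorem exists_isBB_constant (hg : GradedCommutative H₀) (hK : KunnethConjecture H₀)
    (hL : TH613.MC.LefschetzInverse H₀) (hR : ∀ X : 𝒱₀.Obj, HomEqRat H₀ (X.prod B)) :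
    (∃ F : Filtration C, IsBB H F) ∧ ∀ F : Filtration C, IsBB H F →
      ∀ (Y : 𝒱.Obj) (i n : ℕ), B.dim < n → F.F Y i n = ⊥ := by
  have hK' := kunneth_constant S hK
  have hnil : ∀ (Y : 𝒱.Obj) (i : ℕ), NilpotentOnHom H Y i := by
    intro Y i γ hγ hkill y hy hy0
    exact ⟨i, act_iterate_eq_zero S hg (n := i + 1) (by omega)
      (fun X z hz hw => res_eq_zero_of_wt S hK hL (hR X) hz (wt_congr hw (by push_cast; ring) rfl))
      hγ (fun m hm hm' => hkill _ (by omega) (by omega)) hy hy0⟩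
  refine ⟨((isBB_tfae hK').out 0 1).2 hnil, ?_⟩
  · intro F hF Y i
    -- the steps `n > dim B` of the filtration are equal
    have hstep : ∀ n : ℕ, B.dim < n → F.F Y i n ≤ F.F Y i (n + 1) := by
      intro n hn x hx
      have hmon : ∀ m : ℕ, m ≤ n → F.F Y i n ≤ F.F Y i m := by
        intro m hm
        exact antitone_nat_of_succ_le (f := fun n => F.F Y i n) (F.anti Y i) hm
      have hx1 : F.Mem i 1 x := hmon 1 (by omega) hx
      obtain ⟨hxi, hx0⟩ := (hF.bounded.one Y i x).1 hx1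
      by_cases h2i : n ≤ 2 * i
      · obtain ⟨p, hp, hp'⟩ := hK' Y (2 * i - n)
        have hkill : ∀ m : ℕ, 0 < m → m < B.dim + 1 → Kills H p (2 * i - m) := by
          intro m _ hm a ha
          rw [hp' _ a ha, if_neg]
          rw [Nat.cast_sub h2i]
          push_cast
          omega
        have hzero : (C.act p)^[B.dim + 1 - 1] x = 0 :=
          act_iterate_eq_zero S hg (n := B.dim + 1) (by omega)
            (fun X z hz hw => res_eq_zero_of_wt' S hK hL (hR X) hz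
              (wt_congr hw (by push_cast; ring) rfl)) hp hkill hxi hx0
        have hq : ∀ x', F.Mem i n x' → F.Mem i (n + 1) (x' - C.act p x') := by
          intro x' hx'
          have h1 := hF.motivic hK' Y i n (dg C Y - p) (Submodule.sub_mem _ (dg_mem C Y) hp) (by
            intro a ha
            have h2 : H.cl (dg C Y - p) = dg H.toTheoryData Y - H.cl p := by
              rw [map_sub, cl_dg]
            rw [h2, TheoryData.act_sub, act_dg, hp' _ a ha, if_pos, sub_self]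
            rw [Nat.cast_sub h2i]
            push_cast
            rfl) x' hx'
          rwa [TheoryData.act_sub, act_dg] at h1
        have hall : ∀ m : ℕ, F.Mem i n ((C.act p)^[m] x) ∧
            F.Mem i (n + 1) (x - (C.act p)^[m] x) := by
          intro m
          induction m with
          | zero => exact ⟨hx, by rw [Function.iterate_zero, id, sub_self]; exact Submodule.zero_mem _⟩
          | succ m ih =>
            have h1 := hq _ ih.1
            have h2 : F.Mem i (n + 1) (x - (C.act p)^[m + 1] x) := by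
              have h3 := Submodule.add_mem _ ih.2 h1
              rw [Function.iterate_succ_apply']
              have e1 : x - (C.act p)^[m] x + ((C.act p)^[m] x - C.act p ((C.act p)^[m] x)) =
                  x - C.act p ((C.act p)^[m] x) := by abel
              rwa [e1] at h3
            refine ⟨?_, h2⟩
            have h3 := Submodule.sub_mem _ hx (F.anti Y i n h2)
            rwa [sub_sub_cancel] at h3
        have h1 := (hall (B.dim + 1 - 1)).2
        rwa [hzero, sub_zero] at h1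
      · have h1 : F.Mem i (i + 1) x := hmon (i + 1) (by omega) hx
        rw [hF.bounded.top Y i x h1]
        exact Submodule.zero_mem _
    intro n hn
    have hfar : ∀ m : ℕ, F.F Y i n ≤ F.F Y i (n + m) := by
      intro m
      induction m with
      | zero => exact le_rfl
      | succ m ih => exact ih.trans (hstep (n + m) (by omega))
    rw [eq_bot_iff]
    intro x hx
    have h1 : F.F Y i (n + (i + 1)) ≤ F.F Y i (i + 1) :=
      antitone_nat_of_succ_le (f := fun n => F.F Y i n) (F.anti Y i) (by omega)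
    exact (Submodule.mem_bot _).2 (hF.bounded.top Y i x (h1 (hfar (i + 1) hx)))

end Pool.Agent.TH117.CV
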