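import Pool.Agent.TH117.CV.Desc
import Pool.Agent.TH117.CV.DefsM
import Pool.Agent.TH133.MurreD

/-!
# Murre's conjectures for constant varieties over function fields
-/

open CategoryTheory AlgebraicGeometry

set_option autoImplicit false

universe u v v' w

namespace Pool.Agent.TH117.CV

open Pool.Agent.H914 Pool.Agent.H914.VarClass Pool.Agent.H914.VarClass.Obj Pool.Agent.W492.BB
  Pool.Agent.W550.Corr Pool.Agent.TH133

variable {k₀ : Type u} [Field k₀] {𝒱₀ : VarClass k₀} {k : Type u} [Field k] {𝒱 : VarClass k}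
  {K : Type w} [Field K] {C₀ : TheoryData.{u, v, 0} 𝒱₀ ℚ} {C : TheoryData.{u, v', 0} 𝒱 ℚ}
  [hC₀ : IsChowProj C₀] [hC : IsChowProj C]
  {H₀ : WeilTheoryData.{u, v, w} C₀ K} {H : WeilTheoryData.{u, v', w} C K}
  [hH₀ : IsWeilProj H₀] [hH : IsWeilProj H] {B : 𝒱₀.Obj}
  (S : CVData H₀ B H)

include hC₀ hC hH₀ hH S

theorem nilpotentOnHom_constant (hg : GradedCommutative H₀) (hK : KunnethConjecture H₀)
    (hL : TH613.MC.LefschetzInverse H₀) (hR : ∀ X : 𝒱₀.Obj, HomEqRat H₀ (X.prod B))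
    (Y : 𝒱.Obj) (i : ℕ) : NilpotentOnHom H Y i := by
  intro γ hγ hkill y hy hy0
  exact ⟨i, act_iterate_eq_zero S hg (n := i + 1) (by omega)
    (fun X z hz hw => res_eq_zero_of_wt S hK hL (hR X) hz (wt_congr hw (by push_cast; ring) rfl))
    hγ (fun m hm hm' => hkill _ (by omega) (by omega)) hy hy0⟩

theorem ckFil_constant (hg : GradedCommutative H₀) (hK : KunnethConjecture H₀)
    (hL : TH613.MC.LefschetzInverse H₀) (hR : ∀ X : 𝒱₀.Obj, HomEqRat H₀ (X.prod B))
    (Y : 𝒱.Obj) (π : ℕ → C.A (Y.prod Y)) (hπ : IsCK H Y π) (i n : ℕ) (hn : B.dim < n) :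
    ckFil C π i n = ⊥ := by
  rw [eq_bot_iff]
  intro x hx
  rw [Submodule.mem_bot]
  have hD := murreD_of_cond (fun i => nilpotentOnHom_constant S hg hK hL hR Y i)
  have hx1 : x ∈ ckFil C π i 1 := by
    rw [hπ.mem_ckFil] at hx ⊢
    exact ⟨hx.1, fun j hj => hx.2 j (by omega)⟩
  obtain ⟨hxi, hx0⟩ := (hD π hπ i x).1 hx1
  rw [hπ.mem_ckFil] at hx
  have h1 : x = ∑ j ∈ Finset.range (2 * Y.dim + 1), C.act (π j) x := by
    rw [← act_sum, hπ.sum, act_dg]
  rw [h1]
  apply Finset.sum_eq_zero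
  intro j _
  by_cases hj : 2 * i + 1 - n ≤ j
  · exact hx.2 j hj
  · have h2 : (C.act (π j))^[B.dim + 1 - 1] x = 0 :=
      act_iterate_eq_zero S hg (n := B.dim + 1) (by omega)
        (fun X z hz hw => res_eq_zero_of_wt' S hK hL (hR X) hz
          (wt_congr hw (by push_cast; ring) rfl)) (hπ.deg j)
        (fun m hm hm' a ha => hπ.act_ne j _ a (by omega) ha) hxi hx0
    exact act_zero_of_iterate (H := H) (hπ.idem j) h2

/-- **Murre's conjectures for constant varieties.** -/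
theorem murre_constant (hg : GradedCommutative H₀) (hK : KunnethConjecture H₀)
    (hL : TH613.MC.LefschetzInverse H₀) (hR : ∀ X : 𝒱₀.Obj, HomEqRat H₀ (X.prod B))
    (Y : 𝒱.Obj) : (∃ π : ℕ → C.A (Y.prod Y), IsCK H Y π) ∧ MurreB0 H Y ∧ MurreB1 H Y ∧
      MurreC H Y ∧ MurreD H Y := by
  have hnil := nilpotentOnHom_constant S hg hK hL hR
  have hK' := kunneth_constant S hK
  have hD : ∀ Y : 𝒱.Obj, MurreD H Y := fun Y => murreD_of_cond (hnil Y)
  exact ⟨exists_CK_of_cond hK' (hnil _ _), murreB0_of_D Y (hD Y), murreB1_of_cond (hnil Y),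
    murreC_of_B0 Y (murreB0_of_D _ (hD _)), hD Y⟩

omit S hC₀ hH₀ in
/-- A Bloch-Beilinson filtration is induced by each Chow-Kunneth decomposition. -/
theorem mem_isBB_iff_ckFil (hK' : KunnethConjecture H) {F : Filtration C} (hF : IsBB H F)
    {Y : 𝒱.Obj} {π : ℕ → C.A (Y.prod Y)} (hπ : IsCK H Y π) (i n : ℕ) (x : C.A Y) :
    x ∈ F.F Y i n ↔ x ∈ ckFil C π i n := by
  have hkill : ∀ (j m : ℕ), j + m ≠ 2 * i → Kills H (π j) (2 * i - m) := by
    intro j m hjm a ha
    exact hπ.act_ne j _ a (by omega) ha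
  have hidem : ∀ (j : ℕ) (y : C.A Y), C.act (π j) (C.act (π j) y) = C.act (π j) y := by
    intro j y
    rw [← C.act_comp, hπ.idem]
  rw [hπ.mem_ckFil]
  constructor
  · intro hx
    refine ⟨F.le_gr _ i n hx, fun j hj => ?_⟩
    have h2 : ∀ m : ℕ, F.Mem i (n + m) (C.act (π j) x) := by
      intro m
      induction m with
      | zero => exact F.anti _ _ _ (hF.motivic hK' _ i n (π j) (hπ.deg j) (hkill j n (by omega)) _ hx)
      | succ m ih =>
        have h3 := hF.motivic hK' _ i (n + m) (π j) (hπ.deg j) (hkill j (n + m) (by omega)) _ ih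
        rw [hidem] at h3
        exact h3
    have h3 : F.F Y i (n + (i + 1)) ≤ F.F Y i (i + 1) :=
      antitone_nat_of_succ_le (f := fun n => F.F Y i n) (F.anti _ i) (by omega)
    exact hF.bounded.top _ i _ (h3 (h2 (i + 1)))
  · rintro ⟨hx, hx'⟩
    have h1 : x = ∑ j ∈ Finset.range (2 * Y.dim + 1), C.act (π j) x := by
      rw [← act_sum, hπ.sum, act_dg]
    rw [h1]
    apply Submodule.sum_mem
    intro j _
    by_cases hj : 2 * i + 1 - n ≤ j
    · rw [hx' j hj]
      exact Submodule.zero_mem _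
    · have h2 : ∀ m : ℕ, j + m ≤ 2 * i → F.Mem i m (C.act (π j) x) := by
        intro m
        induction m with
        | zero =>
          intro _
          exact (hF.bounded.zero _ i _).2 (act_mem0 C (hπ.deg j) hx)
        | succ m ih =>
          intro hm
          have h3 := hF.motivic hK' _ i m (π j) (hπ.deg j) (hkill j m (by omega)) _ (ih (by omega))
          rw [hidem] at h3
          exact h3
      exact h2 n (by omega)

/-- The filtration induced by a Chow-Kunneth decomposition of a constant variety in terms of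
Kunneth components. -/
theorem mem_ckFil_constant (hg : GradedCommutative H₀) (hK : KunnethConjecture H₀)
    (hL : TH613.MC.LefschetzInverse H₀) (hR : ∀ X : 𝒱₀.Obj, HomEqRat H₀ (X.prod B))
    (X : 𝒱₀.Obj) {π : ℕ → C.A ((S.bc.obj X).prod (S.bc.obj X))} (hπ : IsCK H (S.bc.obj X) π)
    (i n : ℕ) (y : C.A (S.bc.obj X)) : y ∈ ckFil C π i n ↔
      ∃ z : C₀.A (X.prod B), HasDegreeInBase H₀ i n z ∧ S.res X z = y := by
  obtain ⟨⟨F, hF⟩, _⟩ := exists_isBB_constant S hg hK hL hR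
  rw [← mem_isBB_iff_ckFil (kunneth_constant S hK) hF hπ i n y]
  exact mem_isBB_constant S hK (hR X) hF i n y

omit S hC₀ hC hH₀ hH in
lemma inStep_iff {Y : 𝒱.Obj} (π : ℕ → C.A (Y.prod Y)) (i n : ℕ) (y : C.A Y) :
    InStep π i n y ↔ y ∈ ckFil C π i n := by
  unfold InStep ckFil
  rw [Submodule.mem_map]
  exact exists_congr fun x => and_congr Iff.rfl ⟨fun h => h.symm, fun h => h.symm⟩

omit S hC₀ hC hH₀ hH in
lemma isMurre_of {Y : 𝒱.Obj} (h0 : MurreB0 H Y) (h1 : MurreB1 H Y) (hC' : MurreC H Y)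
    (hD : MurreD H Y) (π : ℕ → C.A (Y.prod Y)) (hπ : IsCK H Y π) : IsMurre H π where
  zero i y hy := by
    rw [inStep_iff, h0 π hπ i]
    exact hy
  top i y hy := by
    rw [inStep_iff, h1 π hπ i] at hy
    exact (Submodule.mem_bot _).1 hy
  indep π' hπ' i n y := by
    rw [inStep_iff, inStep_iff, hC' π π' hπ hπ' i n]
  one i y := by
    rw [inStep_iff]
    exact hD π hπ i y

omit S hC₀ hC hH₀ hH in
lemma murre_of_isMurre {Y : 𝒱.Obj} (h : ∀ π : ℕ → C.A (Y.prod Y), IsCK H Y π → IsMurre H π) :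
    MurreB1 H Y ∧ MurreD H Y := by
  refine ⟨fun π hπ i => ?_, fun π hπ i y => ?_⟩
  · rw [eq_bot_iff]
    intro y hy
    exact (Submodule.mem_bot _).2 ((h π hπ).top i y ((inStep_iff _ _ _ _).2 hy))
  · rw [← inStep_iff]
    exact (h π hπ).one i y

end Pool.Agent.TH117.CV
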