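import Pool.Agent.TH117.CV.Data

/-!
# The filtration of `H(X × B)` by the degree in `B`
-/

open CategoryTheory AlgebraicGeometry

set_option autoImplicit false

universe u v w

namespace Pool.Agent.TH117.CV

open Pool.Agent.H914 Pool.Agent.H914.VarClass Pool.Agent.H914.VarClass.Obj Pool.Agent.W492.BB
  Pool.Agent.W550.Corr Pool.Agent.TH133

variable {k : Type u} [Field k] {𝒱 : VarClass k} {C : TheoryData.{u, v, 0} 𝒱 ℚ}
  [hC : IsChowProj C] {K : Type w} [Field K] (H : WeilTheoryData.{u, v, w} C K)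
  [hH : IsWeilProj H] {X Y Z B : 𝒱.Obj}

/-- The part of `H^N(X × B)` of degree at least `n` in `B`. -/
noncomputable def wt (X B : 𝒱.Obj) (n N : ℤ) : Submodule K (H.A (X.prod B)) :=
  Submodule.span K {c | ∃ (m : ℤ) (a : H.A X) (b : H.A B), n ≤ m ∧ a ∈ H.gr X (N - m) ∧
    b ∈ H.gr B m ∧ c = H.ext a b}

/-- The restriction to a closed fibre. -/
noncomputable def fib (X : 𝒱.Obj) (b : C.A B) (c : H.A (X.prod B)) : H.A X :=
  H.push (fst X B) (c * H.pull (snd X B) (H.cl b))

section general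

variable {H}

omit hC hH

lemma ext_wt {n N m : ℤ} {a : H.A X} {b : H.A B} (hm : n ≤ m) (ha : a ∈ H.gr X (N - m))
    (hb : b ∈ H.gr B m) : H.ext a b ∈ wt H X B n N :=
  Submodule.subset_span ⟨m, a, b, hm, ha, hb, rfl⟩

lemma wt_anti {n n' N : ℤ} (h : n ≤ n') : wt H X B n' N ≤ wt H X B n N := by
  apply Submodule.span_mono
  rintro _ ⟨m, a, b, hm, ha, hb, rfl⟩
  exact ⟨m, a, b, h.trans hm, ha, hb, rfl⟩

lemma wt_congr {n n' N N' : ℤ} {c : H.A (X.prod B)} (h : c ∈ wt H X B n N) (h1 : n = n')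
    (h2 : N = N') : c ∈ wt H X B n' N' := by
  subst h1 h2
  exact h

include hC hH

lemma mem_wt_zero {N : ℤ} {c : H.A (X.prod B)} (hc : c ∈ H.gr (X.prod B) N) :
    c ∈ wt H X B 0 N := by
  refine (H.kunneth X B N).trans (Submodule.span_le.2 ?_) hc
  rintro _ ⟨l, a, b, ha, hb, rfl⟩
  by_cases h : 0 ≤ N - l
  · exact ext_wt h (by rw [sub_sub_cancel]; exact ha) hb
  · have hb0 : b = 0 := by
      rw [H.gr_neg B _ (by omega)] at hb
      exact (Submodule.mem_bot _).1 hb
    have : H.pull (fst X B) a * H.pull (snd X B) b = 0 := by rw [hb0, map_zero, mul_zero]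
    change _ * _ ∈ _
    rw [this]
    exact Submodule.zero_mem _

lemma pull_ext (f : X ⟶ Y) (a : H.A Y) (b : H.A B) :
    H.pull (prodMap f (𝟙 B)) (H.ext a b) = H.ext (H.pull f a) b := by
  rw [TheoryData.ext, TheoryData.ext, map_mul, ← H.pull_comp, ← H.pull_comp, prodMap_fst,
    prodMap_snd, Category.comp_id, H.pull_comp]

lemma push_ext (f : X ⟶ Y) (a : H.A X) (b : H.A B) :
    H.push (prodMap f (𝟙 B)) (H.ext a b) = H.ext (H.push f a) b := by
  have e : snd X B = prodMap f (𝟙 B) ≫ snd Y B := by rw [prodMap_snd, Category.comp_id]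
  rw [TheoryData.ext, TheoryData.ext, e, H.pull_comp, H.proj_right, ← H.base_fst]

lemma pull_wt (f : X ⟶ Y) {n N : ℤ} {c : H.A (Y.prod B)} (hc : c ∈ wt H Y B n N) :
    H.pull (prodMap f (𝟙 B)) c ∈ wt H X B n N := by
  refine (Submodule.span_le (p := (wt H X B n N).comap
    (H.pull (prodMap f (𝟙 B))).toLinearMap)).2 ?_ hc
  rintro _ ⟨m, a, b, hm, ha, hb, rfl⟩
  change H.pull _ _ ∈ wt H X B n N
  rw [pull_ext]
  exact ext_wt hm (H.pull_mem f ha) hb

lemma push_wt (f : X ⟶ Y) {n N : ℤ} {c : H.A (X.prod B)} (hc : c ∈ wt H X B n N) :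
    H.push (prodMap f (𝟙 B)) c ∈ wt H Y B n (N + 2 * (Y.dim - X.dim)) := by
  refine (Submodule.span_le (p := (wt H Y B n (N + 2 * (Y.dim - X.dim))).comap
    (H.push (prodMap f (𝟙 B))))).2 ?_ hc
  rintro _ ⟨m, a, b, hm, ha, hb, rfl⟩
  change H.push _ _ ∈ wt H Y B n (N + 2 * (Y.dim - X.dim))
  rw [push_ext]
  refine ext_wt hm ?_ hb
  have := H.push_mem f ha
  rwa [show N - m + 2 * ((Y.dim : ℤ) - X.dim) = N + 2 * (Y.dim - X.dim) - m by ring] at this

lemma mul_wt (hg : GradedCommutative H) {n N n' N' : ℤ} {c c' : H.A (X.prod B)}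
    (hc : c ∈ wt H X B n N) (hc' : c' ∈ wt H X B n' N') :
    c * c' ∈ wt H X B (n + n') (N + N') := by
  refine (Submodule.span_le (p := (wt H X B (n + n') (N + N')).comap
    (LinearMap.mulRight K c'))).2 ?_ hc
  rintro _ ⟨m, a, b, hm, ha, hb, rfl⟩
  change H.ext a b * c' ∈ wt H X B (n + n') (N + N')
  refine (Submodule.span_le (p := (wt H X B (n + n') (N + N')).comap
    (LinearMap.mulLeft K (H.ext a b)))).2 ?_ hc'
  rintro _ ⟨m', a', b', hm', ha', hb', rfl⟩
  change H.ext a b * H.ext a' b' ∈ wt H X B (n + n') (N + N')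
  have h1 : H.pull (snd X B) b * H.pull (fst X B) a' =
      (((N' - m') * m).negOnePow : ℤ) • (H.pull (fst X B) a' * H.pull (snd X B) b) :=
    hg (X.prod B) _ _ _ _ (H.pull_mem (fst X B) ha') (H.pull_mem (snd X B) hb)
  have h2 : H.ext a b * H.ext a' b' = (((N' - m') * m).negOnePow : ℤ) •
      H.ext (a * a') (b * b') := by
    rw [TheoryData.ext, TheoryData.ext, TheoryData.ext, map_mul, map_mul, mul_assoc,
      ← mul_assoc (H.pull (snd X B) b), h1, smul_mul_assoc, mul_smul_comm]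
    congr 1
    simp only [mul_assoc]
  rw [h2, ← Int.cast_smul_eq_zsmul K]
  apply Submodule.smul_mem
  refine ext_wt (add_le_add hm hm') ?_ (H.mul_mem hb hb')
  have := H.mul_mem ha ha'
  rwa [show N - m + (N' - m') = N + N' - (m + m') by ring] at this

end general

/-- The class of a zero-cycle of degree one on `B` has degree one. -/
lemma push_fst_pull_snd {b : C.A B} (hb : HasDegree C b 1) (X : 𝒱.Obj) :
    H.push (fst X B) (H.pull (snd X B) (H.cl b)) = 1 := by
  rw [← H.cl_pull, ← H.cl_push, (hb X).2, one_smul, map_one]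

lemma fib_ext_zero {b : C.A B} (hb : HasDegree C b 1) (a : H.A X) {b' : H.A B}
    (hb' : b' ∈ H.gr B 0) : H.ext (fib H X b (H.ext a b')) 1 = H.ext a b' := by
  obtain ⟨c, rfl⟩ := hH.gr_zero B b' hb'
  have h1 : fib H X b (H.ext a (c • (1 : H.A B))) = c • a := by
    rw [fib, TheoryData.ext, map_smul, map_one, mul_smul_comm, mul_one, smul_mul_assoc, map_smul,
      H.proj_left, push_fst_pull_snd H hb, mul_one]
  rw [h1, TheoryData.ext, TheoryData.ext, map_smul, map_smul, map_one, smul_mul_assoc,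
    mul_smul_comm]

lemma fib_ext_pos {b : C.A B} (hb : b ∈ C.gr B B.dim) (a : H.A X) {m : ℤ} {b' : H.A B}
    (hb' : b' ∈ H.gr B m) (hm : 0 < m) : fib H X b (H.ext a b') = 0 := by
  have h1 : b' * H.cl b = 0 := by
    have := H.mul_mem hb' (H.cl_mem hb)
    rw [TH133.gr_top H (by omega)] at this
    exact (Submodule.mem_bot _).1 this
  rw [fib, TheoryData.ext, mul_assoc, ← map_mul, h1, map_zero, mul_zero, map_zero]

/-- A class on `X × B` is the sum of its restriction to a closed fibre and of a class of positive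
degree in `B`. -/
lemma sub_fib_mem {b : C.A B} (hb : b ∈ C.gr B B.dim) (hb1 : HasDegree C b 1) {N : ℤ}
    {c : H.A (X.prod B)} (hc : c ∈ wt H X B 0 N) :
    c - H.ext (fib H X b c) 1 ∈ wt H X B 1 N := by
  let L : H.A (X.prod B) →ₗ[K] H.A (X.prod B) := LinearMap.id -
    (H.pull (fst X B)).toLinearMap ∘ₗ H.push (fst X B) ∘ₗ
      LinearMap.mulRight K (H.pull (snd X B) (H.cl b))
  have hL : ∀ c, L c = c - H.ext (fib H X b c) 1 := by
    intro c
    have : H.ext (fib H X b c) (1 : H.A B) = H.pull (fst X B) (fib H X b c) := by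
      rw [TheoryData.ext, map_one, mul_one]
    rw [this]
    rfl
  rw [← hL]
  refine (Submodule.span_le (p := (wt H X B 1 N).comap L)).2 ?_ hc
  rintro _ ⟨m, a, b', hm, ha, hb', rfl⟩
  change L (H.ext a b') ∈ wt H X B 1 N
  rw [hL]
  rcases eq_or_lt_of_le hm with h | h
  · subst h
    rw [fib_ext_zero H hb1 a hb', sub_self]
    exact Submodule.zero_mem _
  · rw [fib_ext_pos H hb a hb' h]
    have : H.ext (0 : H.A X) (1 : H.A B) = 0 := TheoryData.ext_zero_left _ _
    rw [this, sub_zero]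
    exact ext_wt (by omega) ha hb'

/-- The relative action of a correspondence over `B`. -/
noncomputable def rel {F : Type*} [Field F] (T : TheoryData 𝒱 F) {X Y B : 𝒱.Obj}
    (γ : T.A ((X.prod Y).prod B)) (z : T.A (X.prod B)) : T.A (Y.prod B) :=
  T.push (t23 X Y B) (γ * T.pull (t13 X Y B) z)

/-- If the restriction of `γ` to a closed fibre acts as zero on `H^(N-n)(X)` then the relative
action of `γ` raises the degree `≥ n` in `B`. -/
lemma rel_wt (hg : GradedCommutative H) {b : C.A B} (hb : b ∈ C.gr B B.dim)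
    (hb1 : HasDegree C b 1) {γ : C.A ((X.prod X).prod B)} (hγ : γ ∈ C.gr _ X.dim) {n N : ℤ}
    (hkill : Kills H (C.push (fst (X.prod X) B) (γ * C.pull (snd (X.prod X) B) b)) (N - n))
    {c : H.A (X.prod B)} (hc : c ∈ wt H X B n N) :
    rel H.toTheoryData (H.cl γ) c ∈ wt H X B (n + 1) N := by
  let g : C.A (X.prod X) := C.push (fst (X.prod X) B) (γ * C.pull (snd (X.prod X) B) b)
  have hgm : g ∈ C.gr (X.prod X) X.dim := by
    have := C.push_mem (fst (X.prod X) B) (C.mul_mem hγ (C.pull_mem (snd (X.prod X) B) hb))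
    have e1 : (X.dim : ℤ) + B.dim + 1 * (((X.prod X).dim : ℤ) - (((X.prod X).prod B).dim : ℤ)) =
        X.dim := by
      rw [dim_prod (X.prod X) B]; push_cast; ring
    rwa [e1] at this
  have hgcl : fib H (X.prod X) b (H.cl γ) = H.cl g := by
    rw [fib, H.cl_push, map_mul H.cl, H.cl_pull]
  have h1 := sub_fib_mem H hb hb1 (mem_wt_zero (H.cl_mem hγ))
  rw [hgcl] at h1
  set w : H.A ((X.prod X).prod B) := H.cl γ - H.ext (H.cl g) (1 : H.A B) with hw
  have h2 : rel H.toTheoryData (H.cl γ) c = H.extL (H.cl g) B c +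
      rel H.toTheoryData w c := by
    have : H.cl γ = H.ext (H.cl g) (1 : H.A B) + w := by rw [hw, add_sub_cancel]
    rw [this, rel, rel, TheoryData.extL, TheoryData.ext, map_one, mul_one, add_mul, map_add]
  rw [h2]
  apply Submodule.add_mem
  · refine (Submodule.span_le (p := (wt H X B (n + 1) N).comap (H.extLL (H.cl g) B))).2 ?_ hc
    rintro _ ⟨m, a, b', hm, ha, hb', rfl⟩
    change H.extL (H.cl g) B (H.ext a b') ∈ wt H X B (n + 1) N
    rw [H.extL_ext]
    rcases eq_or_lt_of_le hm with h | h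
    · subst h
      have h3 : H.act (H.cl g) a = 0 := hkill a ha
      rw [h3, TheoryData.ext_zero_left]
      exact Submodule.zero_mem _
    · refine ext_wt h ?_ hb'
      have := actH_mem H (X := X) (Y := X) (e := 0) (Γ := g) (by rwa [add_zero]) ha
      rwa [mul_zero, add_zero] at this
  · have h3 := mul_wt hg h1 (pull_wt (fst X X) hc)
    have h4 := push_wt (snd X X) h3
    refine wt_congr h4 (by ring) ?_
    rw [dim_prod]; push_cast; ring

end Pool.Agent.TH117.CV
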